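import Mathlib

/-!
# Products of quotient maps from spaces with a clopen compact exhaustion
-/

set_option autoImplicit false

namespace Pool.Agent.Lib.MP_547adb_gt

open Set Topology Filter

section
variable {T G : Type*} [TopologicalSpace T] [T2Space T] (q : T → G) (E : ℕ → Set T)

/-- Saturation of `A` inside `S`. -/
def sat (S A : Set T) : Set T := {v | v ∈ S ∧ ∃ u ∈ A, q u = q v}

theorem sat_closed (hR : IsClosed {p : T × T | q p.1 = q p.2}) {S A : Set T}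
    (hS : IsCompact S) (hA : IsCompact A) : IsClosed (sat q S A) := by
  have h1 : sat q S A = Prod.snd '' ((A ×ˢ S) ∩ {p : T × T | q p.1 = q p.2}) := by
    ext v
    constructor
    · rintro ⟨hv, u, hu, huv⟩
      exact ⟨(u, v), ⟨⟨hu, hv⟩, huv⟩, rfl⟩
    · rintro ⟨⟨u, w⟩, ⟨⟨hu, hw⟩, huv⟩, rfl⟩
      exact ⟨hw, u, hu, huv⟩
  rw [h1]
  exact (((hA.prod hS).inter_right hR).image continuous_snd).isClosed

/-- A set is saturated inside `S`. -/
def SatIn (S A : Set T) : Prop := ∀ u ∈ A, ∀ v ∈ S, q u = q v → v ∈ A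

/-- Good pairs at level `n`. -/
structure Good (O : Set (G × G)) (n : ℕ) (p : Set T × Set T) : Prop where
  cA : IsClosed p.1
  cB : IsClosed p.2
  sA : p.1 ⊆ E n
  sB : p.2 ⊆ E n
  satA : SatIn q (E n) p.1
  satB : SatIn q (E n) p.2
  sub : ∀ u ∈ p.1, ∀ v ∈ p.2, (q u, q v) ∈ O

/-- The one-sided part of a step. -/
structure Step1 (n : ℕ) (A A' U : Set T) : Prop where
  oU : IsOpen U
  sU : U ⊆ E (n + 1)
  AU : A ⊆ U
  UA : U ⊆ A'
  satU : SatIn q (E (n + 1)) U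

theorem step_one (hR : IsClosed {p : T × T | q p.1 = q p.2})
    (hE : ∀ n, IsClopen (E n)) (hc : ∀ n, IsCompact (E n)) (n : ℕ)
    (A W : Set T) (hA : IsClosed A) (hAs : A ⊆ E (n + 1)) (hsat : SatIn q (E (n + 1)) A)
    (hW : IsOpen W) (hAW : A ⊆ W) :
    ∃ A' A'' U : Set T, IsClosed A' ∧ A' ⊆ E (n + 1) ∧ SatIn q (E (n + 1)) A' ∧
      A'' ⊆ W ∧ (∀ v ∈ A', ∃ u ∈ A'', q u = q v) ∧ Step1 q E n A A' U := by
  have hAc : IsCompact A := (hc (n + 1)).of_isClosed_subset hA hAs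
  have hBc : IsCompact (E (n + 1) \ W) := (hc (n + 1)).diff hW
  have hd : Disjoint A (E (n + 1) \ W) := by
    rw [Set.disjoint_left]
    intro x hx hx2
    exact hx2.2 (hAW hx)
  obtain ⟨U', V', hU', hV', hAU', hV'', hdis⟩ := SeparatedNhds.of_isCompact_isCompact hAc hBc hd
  have hA''c : IsCompact (E (n + 1) \ V') := (hc (n + 1)).diff hV'
  have hsc : IsClosed (sat q (E (n + 1)) (E (n + 1) \ V')) := sat_closed q hR (hc _) hA''c
  have hsc2 : IsClosed (sat q (E (n + 1)) (E (n + 1) \ U')) :=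
    sat_closed q hR (hc _) ((hc (n + 1)).diff hU')
  refine ⟨sat q (E (n + 1)) (E (n + 1) \ V'), E (n + 1) \ V',
    E (n + 1) \ sat q (E (n + 1)) (E (n + 1) \ U'), hsc, fun v hv => hv.1, ?_, ?_, ?_, ?_⟩
  · rintro u ⟨hu, w, hw, hwu⟩ v hv huv
    exact ⟨hv, w, hw, hwu.trans huv⟩
  · rintro x ⟨hx, hxV⟩
    by_contra hxW
    exact hxV (hV'' ⟨hx, hxW⟩)
  · rintro v ⟨_, u, hu, huv⟩
    exact ⟨u, hu, huv⟩
  · constructor
    · exact (hE (n + 1)).isOpen.sdiff hsc2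
    · exact sdiff_subset
    · intro a ha
      refine ⟨hAs ha, ?_⟩
      rintro ⟨_, u, hu, hua⟩
      exact hu.2 (hAU' (hsat a ha u hu.1 hua.symm))
    · rintro a ⟨ha, hna⟩
      have haU : a ∈ U' := by
        by_contra h
        exact hna ⟨ha, a, ⟨ha, h⟩, rfl⟩
      exact ⟨ha, a, ⟨ha, fun haV => (Set.disjoint_left.1 hdis) haU haV⟩, rfl⟩
    · rintro u ⟨hu, hnu⟩ v hv huv
      refine ⟨hv, ?_⟩
      rintro ⟨_, w, hw, hwv⟩
      exact hnu ⟨hu, w, hw, hwv.trans huv.symm⟩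

theorem step_two (hR : IsClosed {p : T × T | q p.1 = q p.2})
    (hE : ∀ n, IsClopen (E n)) (hc : ∀ n, IsCompact (E n)) (hmono : ∀ n, E n ⊆ E (n + 1))
    (O : Set (G × G)) (hO : IsOpen ((Prod.map q q) ⁻¹' O)) (n : ℕ) (p : Set T × Set T)
    (hp : Good q E O n p) :
    ∃ p' : Set T × Set T, Good q E O (n + 1) p' ∧
      ∃ U V : Set T, Step1 q E n p.1 p'.1 U ∧ Step1 q E n p.2 p'.2 V := by
  obtain ⟨A, B⟩ := p
  have hAc : IsCompact A := (hc n).of_isClosed_subset hp.cA hp.sA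
  have hBc : IsCompact B := (hc n).of_isClosed_subset hp.cB hp.sB
  have hA1 : IsClosed (sat q (E (n + 1)) A) := sat_closed q hR (hc _) hAc
  have hB1 : IsClosed (sat q (E (n + 1)) B) := sat_closed q hR (hc _) hBc
  have hA2 : IsCompact (sat q (E (n + 1)) A) :=
    (hc (n + 1)).of_isClosed_subset hA1 (fun v hv => hv.1)
  have hB2 : IsCompact (sat q (E (n + 1)) B) :=
    (hc (n + 1)).of_isClosed_subset hB1 (fun v hv => hv.1)
  obtain ⟨W1, W2, hW1, hW2, hAW, hBW, hWW⟩ := generalized_tube_lemma hA2 hB2 hO (by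
    rintro ⟨v, v'⟩ ⟨⟨_, u, hu, huv⟩, ⟨_, u', hu', huv'⟩⟩
    show (q v, q v') ∈ O
    rw [← huv, ← huv']
    exact hp.sub u hu u' hu')
  have hsatA : SatIn q (E (n + 1)) (sat q (E (n + 1)) A) := by
    rintro u ⟨hu, w, hw, hwu⟩ v hv huv
    exact ⟨hv, w, hw, hwu.trans huv⟩
  have hsatB : SatIn q (E (n + 1)) (sat q (E (n + 1)) B) := by
    rintro u ⟨hu, w, hw, hwu⟩ v hv huv
    exact ⟨hv, w, hw, hwu.trans huv⟩
  obtain ⟨A', A'', U, hA'c, hA's, hA'sat, hA''W, hA'q, hU⟩ := step_one q E hR hE hc n _ W1 hA1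
    (fun v hv => hv.1) hsatA hW1 hAW
  obtain ⟨B', B'', V, hB'c, hB's, hB'sat, hB''W, hB'q, hV⟩ := step_one q E hR hE hc n _ W2 hB1
    (fun v hv => hv.1) hsatB hW2 hBW
  refine ⟨(A', B'), ⟨hA'c, hB'c, hA's, hB's, hA'sat, hB'sat, ?_⟩, U, V, ?_, ?_⟩
  · intro u hu v hv
    obtain ⟨a, ha, hau⟩ := hA'q u hu
    obtain ⟨b, hb, hbv⟩ := hB'q v hv
    have h1 : (a, b) ∈ W1 ×ˢ W2 := ⟨hA''W ha, hB''W hb⟩
    have h2 := hWW h1
    have h3 : (q a, q b) ∈ O := h2
    rw [← hau, ← hbv]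
    exact h3
  · exact ⟨hU.oU, hU.sU, fun a ha => hU.AU ⟨hmono n (hp.sA ha), a, ha, rfl⟩, hU.UA, hU.satU⟩
  · exact ⟨hV.oU, hV.sU, fun a ha => hV.AU ⟨hmono n (hp.sB ha), a, ha, rfl⟩, hV.UA, hV.satU⟩

/-- **Products of quotient maps of `k_ω`-type.** -/
theorem isQuotientMap_prodMap [TopologicalSpace G] (hq : IsQuotientMap q)
    (hR : IsClosed {p : T × T | q p.1 = q p.2})
    (hE : ∀ n, IsClopen (E n)) (hc : ∀ n, IsCompact (E n)) (hmono : ∀ n, E n ⊆ E (n + 1))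
    (hcov : ∀ t, ∃ n, t ∈ E n) : IsQuotientMap (Prod.map q q) := by
  have hmono' : Monotone E := monotone_nat_of_le_succ hmono
  rw [isQuotientMap_iff]
  refine ⟨isCoinducing_iff.2 fun O => ⟨fun hO => ?_, fun h =>
    h.preimage (hq.continuous.prodMap hq.continuous)⟩, hq.surjective.prodMap hq.surjective⟩
  rw [isOpen_iff_mem_nhds]
  rintro ⟨g, g'⟩ hg
  obtain ⟨t, rfl⟩ := hq.surjective g
  obtain ⟨t', rfl⟩ := hq.surjective g'
  obtain ⟨n1, hn1⟩ := hcov t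
  obtain ⟨n2, hn2⟩ := hcov t'
  set N := max n1 n2 with hN
  have ht : t ∈ E N := hmono' (le_max_left _ _) hn1
  have ht' : t' ∈ E N := hmono' (le_max_right _ _) hn2
  have hsing : ∀ s : T, IsClosed (sat q (E N) {s}) := fun s =>
    sat_closed q hR (hc N) isCompact_singleton
  have hgood0 : Good q E O (N + 0) (sat q (E N) {t}, sat q (E N) {t'}) := by
    refine ⟨hsing t, hsing t', fun v hv => hv.1, fun v hv => hv.1, ?_, ?_, ?_⟩
    · rintro u ⟨hu, w, hw, hwu⟩ v hv huv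
      exact ⟨hv, w, hw, hwu.trans huv⟩
    · rintro u ⟨hu, w, hw, hwu⟩ v hv huv
      exact ⟨hv, w, hw, hwu.trans huv⟩
    · rintro u ⟨_, w, hw, hwu⟩ v ⟨_, w', hw', hwv⟩
      rw [Set.mem_singleton_iff] at hw hw'
      subst hw
      subst hw'
      rw [← hwu, ← hwv]
      exact hg
  -- the recursion
  let st : (k : ℕ) → {p : Set T × Set T // Good q E O (N + k) p} := fun k =>
    Nat.rec ⟨_, hgood0⟩ (fun k p =>
      ⟨(step_two q E hR hE hc hmono O hO (N + k) p.1 p.2).choose,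
        (step_two q E hR hE hc hmono O hO (N + k) p.1 p.2).choose_spec.1⟩) k
  have hst : ∀ k, ∃ U V : Set T, Step1 q E (N + k) (st k).1.1 (st (k + 1)).1.1 U ∧
      Step1 q E (N + k) (st k).1.2 (st (k + 1)).1.2 V := fun k =>
    (step_two q E hR hE hc hmono O hO (N + k) (st k).1 (st k).2).choose_spec.2
  choose U V hU hV using hst
  have hst0 : (st 0).1 = (sat q (E N) {t}, sat q (E N) {t'}) := rfl
  have hAmono : Monotone (fun k => (st k).1.1) :=
    monotone_nat_of_le_succ (fun k => (hU k).AU.trans (hU k).UA)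
  have hBmono : Monotone (fun k => (st k).1.2) :=
    monotone_nat_of_le_succ (fun k => (hV k).AU.trans (hV k).UA)
  have hUmono : Monotone U := monotone_nat_of_le_succ (fun k => (hU k).UA.trans (hU (k + 1)).AU)
  have hVmono : Monotone V := monotone_nat_of_le_succ (fun k => (hV k).UA.trans (hV (k + 1)).AU)
  have key : ∀ (W : ℕ → Set T), Monotone W → (∀ k, IsOpen (W k)) →
      (∀ k, SatIn q (E (N + k + 1)) (W k)) → IsOpen (q '' (⋃ k, W k)) := by
    intro W hW hWo hWs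
    rw [← hq.isOpen_preimage]
    have : q ⁻¹' (q '' (⋃ k, W k)) = ⋃ k, W k := by
      apply Set.Subset.antisymm
      · rintro v ⟨u, hu, huv⟩
        obtain ⟨k, hk⟩ := mem_iUnion.1 hu
        obtain ⟨m, hm⟩ := hcov v
        refine mem_iUnion.2 ⟨max k m, ?_⟩
        refine hWs (max k m) u (hW (le_max_left _ _) hk) v (hmono' ?_ hm) huv
        have := le_max_right k m
        omega
      · exact subset_preimage_image _ _
    rw [this]
    exact isOpen_iUnion hWo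
  have hUo := key U hUmono (fun k => (hU k).oU) (fun k => (hU k).satU)
  have hVo := key V hVmono (fun k => (hV k).oU) (fun k => (hV k).satU)
  refine Filter.mem_of_superset ((hUo.prod hVo).mem_nhds ⟨⟨t, ?_, rfl⟩, ⟨t', ?_, rfl⟩⟩) ?_
  · exact mem_iUnion.2 ⟨0, (hU 0).AU (by rw [hst0]; exact ⟨ht, t, rfl, rfl⟩)⟩
  · exact mem_iUnion.2 ⟨0, (hV 0).AU (by rw [hst0]; exact ⟨ht', t', rfl, rfl⟩)⟩
  · rintro ⟨_, _⟩ ⟨⟨u, hu, rfl⟩, ⟨v, hv, rfl⟩⟩
    obtain ⟨k, hk⟩ := mem_iUnion.1 hu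
    obtain ⟨m, hm⟩ := mem_iUnion.1 hv
    have h1 : u ∈ (st (max k m + 1)).1.1 := (hU _).UA (hUmono (le_max_left k m) hk)
    have h2 : v ∈ (st (max k m + 1)).1.2 := (hV _).UA (hVmono (le_max_right k m) hm)
    exact (st (max k m + 1)).2.sub u h1 v h2

end

end Pool.Agent.Lib.MP_547adb_gt
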