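import Mathlib

/-!
# Words in a free group and cancellation
-/

set_option autoImplicit false

namespace Pool.Agent.Lib.MP_547adb_gt

open Set Topology Filter

/-- The embedding of `Fin n` in `Fin (n+2)` that skips `i` and `i+1`. -/
def skip (n : ℕ) (i : Fin (n + 1)) (k : Fin n) : Fin (n + 2) :=
  ⟨if k.1 < i.1 then k.1 else k.1 + 2, by split_ifs <;> omega⟩

/-- Two letters cancel. -/
def Cancel {α : Type*} (a b : α × Bool) : Prop := b = (a.1, !a.2)

theorem ofFn_skip {α : Type*} (n : ℕ) (i : Fin (n + 1)) (w : Fin (n + 2) → α) :
    List.ofFn (w ∘ skip n i) = (List.ofFn w).take i.1 ++ (List.ofFn w).drop (i.1 + 2) := by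
  apply List.ext_getElem
  · simp; omega
  · intro k h1 h2
    have hk : k < n := by simpa using h1
    have hi := i.2
    by_cases hki : k < i.1
    · rw [List.getElem_append_left (by simp; omega)]
      simp only [List.getElem_ofFn, Function.comp, skip, hki, if_true, List.getElem_take]
    · rw [List.getElem_append_right (by simp; omega)]
      simp only [List.getElem_ofFn, Function.comp, skip, hki, if_false, List.getElem_drop]
      congr 1
      apply Fin.ext
      simp
      omega

theorem ofFn_split {α : Type*} (n : ℕ) (i : Fin (n + 1)) (w : Fin (n + 2) → α) :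
    List.ofFn w = (List.ofFn w).take i.1 ++
      (w i.castSucc :: w i.succ :: (List.ofFn w).drop (i.1 + 2)) := by
  have hi := i.2
  conv_lhs => rw [← List.take_append_drop i.1 (List.ofFn w)]
  congr 1
  rw [List.drop_eq_getElem_cons (by simp only [List.length_ofFn]; omega),
    List.drop_eq_getElem_cons (by simp only [List.length_ofFn]; omega)]
  simp only [List.getElem_ofFn]
  rfl

theorem mk_skip {α : Type*} (n : ℕ) (i : Fin (n + 1)) (w : Fin (n + 2) → α × Bool)
    (h : Cancel (w i.castSucc) (w i.succ)) :
    FreeGroup.mk (List.ofFn w) = FreeGroup.mk (List.ofFn (w ∘ skip n i)) := by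
  rw [ofFn_skip]
  apply Quot.sound
  have h1 := @FreeGroup.Red.Step.not α (List.take i.1 (List.ofFn w))
    (List.drop (i.1 + 2) (List.ofFn w)) (w i.castSucc).1 (w i.castSucc).2
  have h2 := ofFn_split n i w
  rw [h] at h2
  generalize List.take i.1 (List.ofFn w) ++ List.drop (i.1 + 2) (List.ofFn w) = R at h1 ⊢
  rw [h2]
  exact h1

theorem exists_cancel {α : Type*} (n : ℕ) (w : Fin (n + 2) → α × Bool)
    (h : FreeGroup.mk (List.ofFn w) = 1) :
    ∃ i : Fin (n + 1), Cancel (w i.castSucc) (w i.succ) ∧
      FreeGroup.mk (List.ofFn (w ∘ skip n i)) = 1 := by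
  have h1 : FreeGroup.mk (List.ofFn w) = FreeGroup.mk [] := h
  rw [FreeGroup.Red.exact] at h1
  obtain ⟨c, hc1, hc2⟩ := h1
  rw [FreeGroup.Red.nil_iff] at hc2
  subst hc2
  rcases Relation.ReflTransGen.cases_head hc1 with h2 | ⟨c, hstep, _⟩
  · exfalso
    have := congrArg List.length h2
    simp at this
  · -- decompose
    have hdec : ∃ (L1 L2 : List (α × Bool)) (x : α) (b : Bool),
        List.ofFn w = L1 ++ (x, b) :: (x, !b) :: L2 := by
      generalize hL : List.ofFn w = L at hstep
      cases hstep with
      | not => exact ⟨_, _, _, _, rfl⟩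
    obtain ⟨L1, L2, x, b, hL⟩ := hdec
    have hlen : L1.length + L2.length + 2 = n + 2 := by
      have := congrArg List.length hL
      simp at this
      omega
    let i : Fin (n + 1) := ⟨L1.length, by omega⟩
    have hi1 : w i.castSucc = (x, b) := by
      have h3 : (List.ofFn w)[L1.length]'(by simp; omega) = w i.castSucc := by
        simp only [List.getElem_ofFn]; rfl
      rw [← h3]
      simp only [hL]
      rw [List.getElem_append_right (le_refl _)]
      simp
    have hi2 : w i.succ = (x, !b) := by
      have h3 : (List.ofFn w)[L1.length + 1]'(by simp; omega) = w i.succ := by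
        simp only [List.getElem_ofFn]; rfl
      rw [← h3]
      simp only [hL]
      rw [List.getElem_append_right (by omega)]
      simp
    have hcan : Cancel (w i.castSucc) (w i.succ) := by
      rw [hi1, hi2]; rfl
    exact ⟨i, hcan, by rw [← mk_skip n i w hcan]; exact h⟩

section
variable {K : Type*} [TopologicalSpace K] [T2Space K]

theorem trivial_closed (n : ℕ) :
    IsClosed {w : Fin n → K × Bool | FreeGroup.mk (List.ofFn w) = 1} := by
  induction n using Nat.strong_induction_on with
  | _ n ih =>
    match n, ih with
    | 0, _ =>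
      convert isClosed_univ
      ext w
      simp
      rfl
    | 1, _ =>
      convert isClosed_empty
      ext w
      simp only [Set.mem_ofPred_eq, Set.mem_empty_iff_false, iff_false]
      intro h
      have h1 : FreeGroup.mk (List.ofFn w) = FreeGroup.mk [] := h
      rw [FreeGroup.Red.exact] at h1
      obtain ⟨c, hc1, hc2⟩ := h1
      rw [FreeGroup.Red.nil_iff] at hc2
      subst hc2
      rcases Relation.ReflTransGen.cases_head hc1 with h2 | ⟨c, hstep, _⟩
      · simp at h2
      · have := FreeGroup.Red.Step.length hstep
        simp at this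
    | (n + 2), ih =>
      have h1 : {w : Fin (n + 2) → K × Bool | FreeGroup.mk (List.ofFn w) = 1} =
          ⋃ i : Fin (n + 1), ({w | Cancel (w i.castSucc) (w i.succ)} ∩
            (fun w => w ∘ skip n i) ⁻¹'
              {w : Fin n → K × Bool | FreeGroup.mk (List.ofFn w) = 1}) := by
        ext w
        simp only [Set.mem_ofPred_eq, Set.mem_iUnion, Set.mem_inter_iff, Set.mem_preimage]
        constructor
        · exact exists_cancel n w
        · rintro ⟨i, hi, h2⟩
          rw [mk_skip n i w hi]
          exact h2
      rw [h1]
      apply isClosed_iUnion_of_finite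
      intro i
      apply IsClosed.inter
      · apply isClosed_eq
        · fun_prop
        · have : Continuous (fun b : Bool => !b) := continuous_of_discreteTopology
          fun_prop
      · apply (ih n (by omega)).preimage
        fun_prop

end

end Pool.Agent.Lib.MP_547adb_gt
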