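import Mathlib
import Pool.Agent.Lib.MP_547adb_gt.KOmega
import Pool.Agent.Lib.MP_547adb_gt.Words

/-!
# The free topological group over a compact Hausdorff space, as a quotient of the space of words
-/

set_option autoImplicit false

namespace Pool.Agent.Lib.MP_547adb_gt

open Set Topology Filter

/-- The space of words. -/
abbrev Wd (K : Type*) := Σ n : ℕ, (Fin n → K × Bool)

/-- The value of a word. -/
def wq {K : Type*} (w : Wd K) : FreeGroup K := FreeGroup.mk (List.ofFn w.2)

theorem wq_surjective {K : Type*} : Function.Surjective (wq (K := K)) := by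
  intro g
  induction g using Quot.inductionOn with
  | h L =>
    refine ⟨⟨L.length, fun i => L.get i⟩, ?_⟩
    show FreeGroup.mk (List.ofFn fun i => L.get i) = FreeGroup.mk L
    congr 1
    exact List.ofFn_get L

/-- Concatenation. -/
def wapp {K : Type*} (p : Wd K × Wd K) : Wd K := ⟨p.1.1 + p.2.1, Fin.append p.1.2 p.2.2⟩

/-- Inversion. -/
def winv {K : Type*} (p : Wd K) : Wd K := ⟨p.1, fun i => ((p.2 i.rev).1, !(p.2 i.rev).2)⟩

theorem wq_wapp {K : Type*} (p : Wd K × Wd K) : wq (wapp p) = wq p.1 * wq p.2 := by
  show FreeGroup.mk (List.ofFn (Fin.append p.1.2 p.2.2)) = _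
  rw [List.ofFn_fin_append]
  rfl

theorem wq_winv {K : Type*} (p : Wd K) : wq (winv p) = (wq p)⁻¹ := by
  show FreeGroup.mk (List.ofFn fun i => ((p.2 i.rev).1, !(p.2 i.rev).2)) =
    (FreeGroup.mk (List.ofFn p.2))⁻¹
  rw [FreeGroup.inv_mk]
  congr 1
  rw [FreeGroup.invRev]
  apply List.ext_getElem
  · simp
  · intro k h1 h2
    simp only [List.length_ofFn] at h1
    simp only [List.getElem_ofFn, List.getElem_reverse, List.getElem_map, List.length_map,
      List.length_ofFn]
    have : (⟨k, h1⟩ : Fin p.1).rev = ⟨p.1 - 1 - k, by omega⟩ := by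
      apply Fin.ext
      simp [Fin.rev]
      omega
    rw [this]

section
variable {K : Type*} [TopologicalSpace K]

theorem continuous_sigma_prod {ι κ Z : Type*} {X : ι → Type*} {Y : κ → Type*}
    [∀ i, TopologicalSpace (X i)] [∀ j, TopologicalSpace (Y j)] [TopologicalSpace Z]
    (f : (Σ i, X i) × (Σ j, Y j) → Z)
    (h : ∀ i j, Continuous (fun p : X i × Y j => f (⟨i, p.1⟩, ⟨j, p.2⟩))) : Continuous f := by
  rw [continuous_iff_continuousAt]
  rintro ⟨⟨i, x⟩, ⟨j, y⟩⟩
  have h1 : IsOpenEmbedding (Prod.map (@Sigma.mk ι X i) (@Sigma.mk κ Y j)) :=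
    IsOpenEmbedding.sigmaMk.prodMap IsOpenEmbedding.sigmaMk
  have h2 := (h1.continuousAt_iff (f := Prod.map (@Sigma.mk ι X i) (@Sigma.mk κ Y j))
    (g := f) (x := (x, y))).1 (h i j).continuousAt
  exact h2

theorem continuous_wapp : Continuous (wapp (K := K)) := by
  apply continuous_sigma_prod
  intro n m
  show Continuous (fun p : (Fin n → K × Bool) × (Fin m → K × Bool) =>
    (⟨n + m, Fin.append p.1 p.2⟩ : Wd K))
  refine (continuous_sigmaMk (i := n + m)).comp (?_ : Continuous
    (fun p : (Fin n → K × Bool) × (Fin m → K × Bool) => Fin.append p.1 p.2))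
  apply continuous_pi
  intro i
  refine Fin.addCases (fun a => ?_) (fun b => ?_) i
  · simp only [Fin.append_left]
    fun_prop
  · simp only [Fin.append_right]
    fun_prop

theorem continuous_winv : Continuous (winv (K := K)) := by
  apply continuous_sigma
  intro n
  refine (continuous_sigmaMk (i := n)).comp (?_ : Continuous
    (fun (a : Fin n → K × Bool) (i : Fin n) => ((a i.rev).1, !(a i.rev).2)))
  apply continuous_pi
  intro i
  have : Continuous (fun b : Bool => !b) := continuous_of_discreteTopology
  fun_prop

/-- The free group with the quotient topology from the space of words. -/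
def KF (K : Type*) := FreeGroup K

instance (K : Type*) : Group (KF K) := inferInstanceAs (Group (FreeGroup K))

instance : TopologicalSpace (KF K) := TopologicalSpace.coinduced (wq (K := K)) inferInstance

/-- The word map into `KF`. -/
def kq : Wd K → KF K := wq (K := K)

theorem kq_quotient : IsQuotientMap (kq (K := K)) := by
  rw [isQuotientMap_iff]
  exact ⟨⟨rfl⟩, wq_surjective⟩

variable [T2Space K]

theorem isClosed_one : IsClosed {w : Wd K | wq w = 1} := by
  rw [isClosed_sigma_iff]
  intro n
  exact trivial_closed n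

theorem isClosed_kernel : IsClosed {p : Wd K × Wd K | kq p.1 = kq p.2} := by
  have h1 : {p : Wd K × Wd K | kq p.1 = kq p.2} =
      (fun p : Wd K × Wd K => wapp (p.1, winv p.2)) ⁻¹' {w : Wd K | wq w = 1} := by
    ext p
    simp only [Set.mem_ofPred_eq, Set.mem_preimage]
    rw [wq_wapp, wq_winv, mul_inv_eq_one]
    rfl
  rw [h1]
  apply isClosed_one.preimage
  apply continuous_wapp.comp
  exact continuous_fst.prodMk (continuous_winv.comp continuous_snd)

/-- Words of length at most `n`. -/
def WE (K : Type*) (n : ℕ) : Set (Wd K) := {w | w.1 ≤ n}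

omit [T2Space K] [TopologicalSpace K] in
theorem WE_eq (n : ℕ) : WE K n = ⋃ m ∈ Finset.range (n + 1), range (@Sigma.mk ℕ
    (fun n => Fin n → K × Bool) m) := by
  ext ⟨m, w⟩
  simp only [WE, Set.mem_ofPred_eq, Set.mem_iUnion, Finset.mem_range, Set.mem_range, exists_prop]
  constructor
  · intro h
    exact ⟨m, by omega, w, rfl⟩
  · rintro ⟨m', hm', w', hw'⟩
    have := congrArg Sigma.fst hw'
    simp at this
    omega

omit [T2Space K] in
theorem WE_clopen (n : ℕ) : IsClopen (WE K n) := by
  constructor
  · rw [WE_eq]
    exact isClosed_biUnion_finset (fun _ _ => isClosed_range_sigmaMk)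
  · rw [WE_eq]
    exact isOpen_biUnion (fun _ _ => isOpen_range_sigmaMk)

omit [T2Space K] in
theorem WE_compact [CompactSpace K] (n : ℕ) : IsCompact (WE K n) := by
  rw [WE_eq]
  apply (Finset.range (n + 1)).isCompact_biUnion
  intro m _
  exact isCompact_range continuous_sigmaMk

variable [CompactSpace K]

theorem kq_prod_quotient : IsQuotientMap (Prod.map (kq (K := K)) (kq (K := K))) := by
  apply isQuotientMap_prodMap (kq (K := K)) (WE K) kq_quotient isClosed_kernel WE_clopen WE_compact
  · intro n w hw
    exact Nat.le_succ_of_le hw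
  · intro w
    exact ⟨w.1, le_refl w.1⟩

instance : IsTopologicalGroup (KF K) where
  continuous_mul := by
    rw [kq_prod_quotient.continuous_iff]
    have : (fun p : KF K × KF K => p.1 * p.2) ∘ Prod.map kq kq = kq ∘ wapp := by
      ext p
      exact (wq_wapp p).symm
    rw [this]
    exact kq_quotient.continuous.comp continuous_wapp
  continuous_inv := by
    rw [kq_quotient.continuous_iff]
    have : (fun p : KF K => p⁻¹) ∘ kq = kq ∘ winv := by
      ext p
      exact (wq_winv p).symm
    rw [this]
    exact kq_quotient.continuous.comp continuous_winv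

instance : T1Space (KF K) := by
  constructor
  intro x
  obtain ⟨w, rfl⟩ := kq_quotient.surjective x
  rw [← kq_quotient.isClosed_preimage]
  have : kq ⁻¹' {kq w} = (fun v => (v, w)) ⁻¹' {p : Wd K × Wd K | kq p.1 = kq p.2} := by
    ext v
    simp
  rw [this]
  exact isClosed_kernel.preimage (by fun_prop)

instance : T2Space (KF K) := inferInstance

omit [T2Space K] [CompactSpace K] in
/-- Continuity of functions on `KF K`. -/
theorem continuous_KF_iff {Z : Type*} [TopologicalSpace Z] (g : KF K → Z) :
    Continuous g ↔ ∀ n, Continuous (fun w : Fin n → K × Bool => g (FreeGroup.mk (List.ofFn w))) := by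
  rw [kq_quotient.continuous_iff, continuous_sigma_iff]
  rfl

/-- The canonical map. -/
def kof (x : K) : KF K := FreeGroup.of x

omit [T2Space K] [CompactSpace K] in
theorem continuous_kof : Continuous (kof (K := K)) := by
  have : (kof (K := K)) = kq ∘ (fun x => (⟨1, fun _ => (x, true)⟩ : Wd K)) := by
    ext x
    show FreeGroup.of x = FreeGroup.mk (List.ofFn _)
    simp [FreeGroup.of]
  rw [this]
  apply kq_quotient.continuous.comp
  apply continuous_sigmaMk.comp
  fun_prop

end

end Pool.Agent.Lib.MP_547adb_gt
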