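import Mathlib
import Pool.Agent.Lib.MP_547adb_gt.FreeK

/-!
# The (Markov) free topological group and `k_R`-spaces
-/

set_option autoImplicit false

namespace Pool.Agent.Lib.MP_547adb_gt

open Set Topology Filter

/-- A `k_R`-space: every real function that is continuous on every compact set is continuous. -/
def IsKR (Y : Type*) [TopologicalSpace Y] : Prop :=
  ∀ f : Y → ℝ, (∀ C : Set Y, IsCompact C → ContinuousOn f C) → Continuous f

/-- The group topologies on the abstract free group over `X` for which the inclusion of the
generators is continuous. -/
def GroupTops (X : Type*) [TopologicalSpace X] : Set (TopologicalSpace (FreeGroup X)) :=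
  {t | @IsTopologicalGroup (FreeGroup X) t _ ∧ @Continuous X (FreeGroup X) _ t FreeGroup.of}

/-- The free topological group over `X`: the abstract free group, with the finest group topology
for which the inclusion of the generators is continuous. -/
def FT (X : Type*) := FreeGroup X

instance (X : Type*) : Group (FT X) := inferInstanceAs (Group (FreeGroup X))

instance (X : Type*) [TopologicalSpace X] : TopologicalSpace (FT X) := sInf (GroupTops X)

/-- The inclusion of the generators. -/
def FT.of {X : Type*} (x : X) : FT X := FreeGroup.of x

/-- `F_n(X)`: the products of at most `n` generators and inverses of generators. -/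
def FN (X : Type*) (n : ℕ) : Set (FT X) :=
  {w | ∃ L : List (X × Bool), L.length ≤ n ∧ FreeGroup.mk L = w}

/-- The homomorphism extending a map to a group. -/
def FT.lift {X : Type*} {H : Type*} [Group H] (φ : X → H) : FT X →* H := FreeGroup.lift φ

theorem FT.lift_of {X : Type*} {H : Type*} [Group H] (φ : X → H) (x : X) :
    FT.lift φ (FT.of x) = φ x := FreeGroup.lift_apply_of

section
variable {X : Type*} [TopologicalSpace X]

instance : IsTopologicalGroup (FT X) :=
  topologicalGroup_sInf (G := FreeGroup X) (fun _ ht => ht.1)

theorem FT.continuous_of : Continuous (FT.of (X := X)) := by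
  have : @Continuous X (FreeGroup X) _ (sInf (GroupTops X)) FreeGroup.of :=
    continuous_sInf_rng.2 (fun t ht => ht.2)
  exact this

theorem FT.continuous_lift {H : Type*} [Group H] [TopologicalSpace H] [IsTopologicalGroup H]
    (φ : X → H) (hφ : Continuous φ) : Continuous (FT.lift φ) := by
  have h1 : TopologicalSpace.induced (FreeGroup.lift φ) inferInstance ∈ GroupTops X := by
    refine ⟨topologicalGroup_induced (FreeGroup.lift φ), ?_⟩
    rw [continuous_induced_rng]
    have : (FreeGroup.lift φ) ∘ FreeGroup.of = φ := by
      ext x; exact FreeGroup.lift_apply_of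
    rw [this]
    exact hφ
  have h2 : sInf (GroupTops X) ≤ TopologicalSpace.induced (FreeGroup.lift φ) inferInstance :=
    sInf_le h1
  exact continuous_iff_le_induced.2 h2

instance : CompletelyRegularSpace (FT X) :=
  CompletelyRegularSpace.of_exists_uniformSpace ⟨IsTopologicalGroup.rightUniformSpace (FT X), rfl⟩

/-- A letter. -/
def letter (p : X × Bool) : FT X := cond p.2 (FT.of p.1) (FT.of p.1)⁻¹

theorem continuous_letter : Continuous (letter (X := X)) := by
  rw [continuous_prod_of_discrete_right]
  intro b
  cases b
  · exact FT.continuous_of.inv
  · exact FT.continuous_of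

/-- The value in `FT X` of a word. -/
def word {n : ℕ} (v : Fin n → X × Bool) : FT X := FreeGroup.mk (List.ofFn v)

omit [TopologicalSpace X] in
theorem word_eq {n : ℕ} (v : Fin n → X × Bool) :
    word v = ((List.finRange n).map (fun i => letter (v i))).prod := by
  have h1 : (FreeGroup.lift (FreeGroup.of : X → FreeGroup X)) = MonoidHom.id _ := by
    ext x; simp
  have h2 : (FreeGroup.lift (FreeGroup.of : X → FreeGroup X)) (FreeGroup.mk (List.ofFn v)) =
      List.prod ((List.ofFn v).map fun x => cond x.2 (FreeGroup.of x.1) (FreeGroup.of x.1)⁻¹) :=
    FreeGroup.lift_mk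
  rw [h1] at h2
  show FreeGroup.mk (List.ofFn v) = _
  rw [MonoidHom.id_apply] at h2
  rw [h2, List.ofFn_eq_map, List.map_map]
  rfl

theorem continuous_word (n : ℕ) : Continuous (word (X := X) (n := n)) := by
  have : (word (X := X) (n := n)) = fun v => ((List.finRange n).map (fun i => letter (v i))).prod := by
    ext v; exact word_eq v
  rw [this]
  apply continuous_list_prod
  intro i _
  exact continuous_letter.comp (continuous_apply i)

/-- The homomorphism induced by a map. -/
def toKF {X K : Type*} (f : X → K) : FT X → KF K := (FreeGroup.map f : FreeGroup X → FreeGroup K)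

/-- If `X` embeds in a compact Hausdorff space then `FT X` maps continuously into `KF K`. -/
theorem continuous_toKF {K : Type*} [TopologicalSpace K] [T2Space K] [CompactSpace K]
    (f : X → K) (hf : Continuous f) : Continuous (toKF f) := by
  have h1 := FT.continuous_lift (H := KF K) (fun x => kof (f x)) (continuous_kof.comp hf)
  have h2 : (⇑(FT.lift (H := KF K) (fun x => kof (f x))) : FT X → KF K) = toKF f := by
    have : (FreeGroup.lift (fun x => (FreeGroup.of (f x) : FreeGroup K))) = FreeGroup.map f := by
      ext x; simp
    exact congrArg DFunLike.coe this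
  rw [h2] at h1
  exact h1

theorem isEmbedding_kof {K : Type*} [TopologicalSpace K] [T2Space K] [CompactSpace K] :
    IsEmbedding (kof (K := K)) := by
  have h1 : Function.Injective (kof (K := K)) := FreeGroup.of_injective
  exact (continuous_kof.isClosedEmbedding h1).isEmbedding

theorem FT.isEmbedding_of {K : Type*} [TopologicalSpace K] [T2Space K] [CompactSpace K]
    (f : X → K) (hf : IsEmbedding f) : IsEmbedding (FT.of (X := X)) := by
  have h1 := continuous_toKF f hf.continuous
  have h2 : IsEmbedding (toKF f ∘ FT.of) := by
    have : (toKF f ∘ FT.of) = kof ∘ f := by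
      ext x
      exact FreeGroup.map.of
    rw [this]
    exact isEmbedding_kof.comp hf
  exact IsEmbedding.of_comp FT.continuous_of h1 h2

theorem FT.t2 {K : Type*} [TopologicalSpace K] [T2Space K] [CompactSpace K]
    (f : X → K) (hf : IsEmbedding f) : T2Space (FT X) :=
  T2Space.of_injective_continuous (f := toKF f)
    (FreeGroup.map_injective hf.injective) (continuous_toKF f hf.continuous)

end

end Pool.Agent.Lib.MP_547adb_gt
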