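import Mathlib
import Pool.Agent.Lib.MP_547adb_gt.Markov

/-!
# The space
-/

set_option autoImplicit false

namespace Pool.Agent.Lib.MP_547adb_gt

open Set Topology Filter

section
variable (A B : Type*) [CompleteLinearOrder A] [CompleteLinearOrder B]

/-- The index set. -/
abbrev Idx := {a : A // a < ⊤}

/-- The big compact space. -/
abbrev KT := Idx A → B × Bool

variable {A B}

/-- The points of the space. -/
def InX (x : KT A B) : Prop :=
  (∃ γ : A, γ < ⊤ ∧ ∀ i : Idx A, γ ≤ i.1 → x i = (⊤, true)) ∧
    ∀ i, (x i).2 = false → (x i).1 < ⊤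

/-- The compact pieces. -/
def CC (γ : A) (β : B) : Set (KT A B) :=
  {x | (∀ i : Idx A, γ ≤ i.1 → x i = (⊤, true)) ∧ ∀ i, (x i).2 = false → (x i).1 ≤ β}

/-- The one-coordinate retraction. -/
def rho (β : B) (p : B × Bool) : B × Bool := (if p.2 then p.1 else min p.1 β, p.2)

open Classical in
/-- The retraction. -/
noncomputable def rr (γ : A) (β : B) (x : KT A B) : KT A B :=
  fun i => if i.1 < γ then rho β (x i) else (⊤, true)

/-- The map which identifies the points. -/
def psi (x : KT A B) : (Idx A → B) × (Idx A × Idx A → Bool) :=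
  (fun i => (x i).1, fun p => (x p.1).2 && !(x p.2).2)

theorem rr_mem (γ : A) (β : B) (x : KT A B) : rr γ β x ∈ CC γ β := by
  constructor
  · intro i hi
    simp [rr, not_lt.2 hi]
  · intro i
    unfold rr rho
    split_ifs with h1 h2
    · intro h; simp [h2] at h
    · intro _; exact min_le_right _ _
    · intro h; simp at h

theorem CC_sub {γ : A} {β : B} (hγ : γ < ⊤) (hβ : β < ⊤) {x : KT A B} (hx : x ∈ CC γ β) :
    InX x := ⟨⟨γ, hγ, hx.1⟩, fun i hi => (hx.2 i hi).trans_lt hβ⟩

theorem CC_mono {γ γ' : A} {β β' : B} (hγ : γ ≤ γ') (hβ : β ≤ β') :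
    (CC γ β : Set (KT A B)) ⊆ CC γ' β' :=
  fun _ hx => ⟨fun i hi => hx.1 i (hγ.trans hi), fun i hi => (hx.2 i hi).trans hβ⟩

theorem rr_rr {γ γ' : A} {β β' : B} (hγ : γ ≤ γ') (hβ : β ≤ β') (x : KT A B) :
    rr γ β (rr γ' β' x) = rr γ β x := by
  funext i
  unfold rr rho
  by_cases h1 : i.1 < γ
  · have h2 : i.1 < γ' := h1.trans_le hγ
    simp only [h1, h2, if_true]
    cases h3 : (x i).2
    · simp [min_assoc, min_eq_right hβ]
    · simp
  · simp [h1]

omit [CompleteLinearOrder B] in
theorem psi_inj (x x' : KT A B) (h : psi x = psi x') :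
    x = x' ∨ (∀ i, (x i).1 = (x' i).1) ∧
      (((∀ i, (x i).2 = true) ∧ ∀ i, (x' i).2 = false) ∨
        ((∀ i, (x i).2 = false) ∧ ∀ i, (x' i).2 = true)) := by
  have h1 : ∀ i, (x i).1 = (x' i).1 := fun i => congrFun (congrArg Prod.fst h) i
  have h2 : ∀ i j, ((x i).2 && !(x j).2) = ((x' i).2 && !(x' j).2) :=
    fun i j => congrFun (congrArg Prod.snd h) (i, j)
  by_cases h3 : ∀ i, (x i).2 = (x' i).2
  · left
    funext i
    exact Prod.ext (h1 i) (h3 i)
  · right
    refine ⟨h1, ?_⟩
    push Not at h3
    obtain ⟨i, hi⟩ := h3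
    cases hx : (x i).2
    · have hx' : (x' i).2 = true := by
        cases h : (x' i).2
        · exact absurd (hx.trans h.symm) hi
        · rfl
      right
      constructor
      · intro j
        have := h2 j i
        rw [hx, hx'] at this
        simpa using this
      · intro j
        have := h2 i j
        rw [hx, hx'] at this
        simpa using this
    · have hx' : (x' i).2 = false := by
        cases h : (x' i).2
        · rfl
        · exact absurd (hx.trans h.symm) hi
      left
      constructor
      · intro j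
        have := h2 i j
        rw [hx, hx'] at this
        simpa using this
      · intro j
        have := h2 j i
        rw [hx, hx'] at this
        simpa using this

/-- The point with second coordinates `b`. -/
def pt (s : Idx A → B) (b : Bool) : KT A B := fun i => (s i, b)

omit [CompleteLinearOrder B] in
theorem psi_pt (s : Idx A → B) : psi (pt s true) = psi (pt s false) := by
  simp [psi, pt]

omit [CompleteLinearOrder B] in
theorem psi_inj' (x x' : KT A B) (h : psi x = psi x') :
    x = x' ∨ ∃ s, (x = pt s true ∧ x' = pt s false) ∨ (x = pt s false ∧ x' = pt s true) := by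
  rcases psi_inj x x' h with h | ⟨h1, ⟨h2, h3⟩ | ⟨h2, h3⟩⟩
  · exact Or.inl h
  · right
    refine ⟨fun i => (x i).1, Or.inl ⟨?_, ?_⟩⟩
    · funext i; exact Prod.ext rfl (h2 i)
    · funext i; exact Prod.ext (h1 i).symm (h3 i)
  · right
    refine ⟨fun i => (x i).1, Or.inr ⟨?_, ?_⟩⟩
    · funext i; exact Prod.ext rfl (h2 i)
    · funext i; exact Prod.ext (h1 i).symm (h3 i)

/-- Points of the form `pt s false` are not in the space. -/
theorem not_InX_pt (s : Idx A → B) : ¬ InX (pt s false) := by
  rintro ⟨⟨γ, hγ, h⟩, _⟩
  have := h ⟨γ, hγ⟩ (le_refl _)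
  simp [pt] at this

theorem psi_injOn {x x' : KT A B} (hx : InX x) (hx' : InX x') (h : psi x = psi x') : x = x' := by
  rcases psi_inj' x x' h with h | ⟨s, ⟨_, h2⟩ | ⟨h2, _⟩⟩
  · exact h
  · rw [h2] at hx'; exact absurd hx' (not_InX_pt s)
  · rw [h2] at hx; exact absurd hx (not_InX_pt s)

end

section
variable (A B : Type*) [CompleteLinearOrder A] [CompleteLinearOrder B]

/-- The space `X` as a set. -/
def XS := {x : KT A B // InX x}

variable {A B}

/-- The map of the space to the product. -/
def XS.psi (x : XS A B) : (Idx A → B) × (Idx A × Idx A → Bool) :=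
  Pool.Agent.Lib.MP_547adb_gt.psi x.1

instance [TopologicalSpace B] : TopologicalSpace (XS A B) :=
  TopologicalSpace.induced XS.psi inferInstance

theorem XS.isEmbedding_psi [TopologicalSpace B] : IsEmbedding (XS.psi (A := A) (B := B)) :=
  ⟨⟨rfl⟩, fun x y h => Subtype.ext (psi_injOn x.2 y.2 h)⟩

end

section
variable {A B : Type*} [CompleteLinearOrder A] [CompleteLinearOrder B]
  [TopologicalSpace B] [OrderTopology B]

theorem continuous_rho : Continuous (fun q : B × (B × Bool) => rho q.1 q.2) := by
  have h1 : Continuous (fun q : (B × B) × Bool => rho q.1.1 (q.1.2, q.2)) := by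
    rw [continuous_prod_of_discrete_right]
    intro b
    cases b
    · show Continuous (fun q : B × B => (min q.2 q.1, false))
      fun_prop
    · show Continuous (fun q : B × B => (q.2, true))
      fun_prop
  exact h1.comp (by fun_prop : Continuous (fun q : B × (B × Bool) => ((q.1, q.2.1), q.2.2)))

theorem continuous_rr (γ : A) (β : B) : Continuous (rr γ β) := by
  apply continuous_pi
  intro i
  unfold rr
  by_cases h : i.1 < γ
  · simp only [h, if_true]
    exact continuous_rho.comp (continuous_const.prodMk (continuous_apply i))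
  · simp only [h, if_false]
    exact continuous_const

omit [CompleteLinearOrder B] [OrderTopology B] in
theorem continuous_psi : Continuous (psi (A := A) (B := B)) := by
  apply Continuous.prodMk
  · fun_prop
  · apply continuous_pi
    rintro ⟨i, j⟩
    have h1 : Continuous (fun q : Bool × Bool => q.1 && !q.2) := continuous_of_discreteTopology
    exact h1.comp (by fun_prop : Continuous (fun x : KT A B => ((x i).2, (x j).2)))

theorem CC_closed (γ : A) (β : B) : IsClosed (CC γ β : Set (KT A B)) := by
  have h1 : (CC γ β : Set (KT A B)) = (⋂ i : Idx A, ⋂ _ : γ ≤ i.1, {x | x i = (⊤, true)}) ∩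
      ⋂ i : Idx A, {x | (x i).2 = true} ∪ {x | (x i).1 ≤ β} := by
    apply Set.ext
    intro x
    constructor
    · rintro ⟨h1, h2⟩
      refine ⟨mem_iInter.2 fun i => mem_iInter.2 fun hi => h1 i hi, mem_iInter.2 fun i => ?_⟩
      by_cases h : (x i).2 = true
      · exact Or.inl h
      · exact Or.inr (h2 i (by simpa using h))
    · rintro ⟨h1, h2⟩
      refine ⟨fun i hi => mem_iInter.1 (mem_iInter.1 h1 i) hi, fun i hi => ?_⟩
      rcases mem_iInter.1 h2 i with h | h
      · have h' : (x i).2 = true := h
        rw [hi] at h'; simp at h'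
      · exact h
  rw [h1]
  apply IsClosed.inter
  · apply isClosed_iInter
    intro i
    apply isClosed_iInter
    intro _
    exact isClosed_eq (by fun_prop) continuous_const
  · apply isClosed_iInter
    intro i
    apply IsClosed.union
    · exact isClosed_eq (by fun_prop) continuous_const
    · exact isClosed_le (by fun_prop) continuous_const

theorem CC_compact (γ : A) (β : B) : IsCompact (CC γ β : Set (KT A B)) :=
  (CC_closed γ β).isCompact

end

end Pool.Agent.Lib.MP_547adb_gt
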