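import Mathlib
import Pool.Agent.Lib.MP_547adb_gt.Space

/-!
# The extension lemma
-/

set_option autoImplicit false

namespace Pool.Agent.Lib.MP_547adb_gt

open Set Topology Filter

/-- The hypotheses on the two well-ordered spaces. -/
structure Big (A B : Type*) [CompleteLinearOrder A] [CompleteLinearOrder B]
    [TopologicalSpace A] : Prop where
  a0 : (⊥ : A) < ⊤
  a1 : ∀ f : ℕ → A, (∀ n, f n < ⊤) → ⨆ n, f n < ⊤
  a2 : ∀ a : A, a < ⊤ → ∃ a', a < a' ∧ a' < ⊤
  a3 : ∀ a : A, IsOpen (Iic a)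
  b0 : (⊥ : B) < ⊤
  b1 : ∀ f : ℕ → B, (∀ n, f n < ⊤) → ⨆ n, f n < ⊤
  b2 : ∀ b : B, b < ⊤ → ∃ b', b < b' ∧ b' < ⊤
  b3 : ∀ f : Idx A → B, (∀ i, f i < ⊤) → ⨆ i, f i < ⊤

section
variable {A B : Type*} [CompleteLinearOrder A] [CompleteLinearOrder B]

/-- Levels. -/
abbrev Lev (A B : Type*) [CompleteLinearOrder A] [CompleteLinearOrder B] :=
  {p : A × B // p.1 < ⊤ ∧ p.2 < ⊤}

/-- The compact piece of a level. -/
abbrev CS (s : Lev A B) : Set (KT A B) := CC s.1.1 s.1.2

/-- The inclusion of a compact piece. -/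
def toX (s : Lev A B) (x : CS s) : XS A B := ⟨x.1, CC_sub s.2.1 s.2.2 x.2⟩

/-- The retraction of a level. -/
noncomputable def rS (s : Lev A B) (x : KT A B) : CS s := ⟨rr s.1.1 s.1.2 x, rr_mem _ _ x⟩

/-- The retraction as a map to the space. -/
noncomputable def rX (s : Lev A B) (x : KT A B) : XS A B := toX s (rS s x)

/-- The self-map of the space. -/
noncomputable def rXX (s : Lev A B) (x : XS A B) : XS A B := rX s x.1

theorem rX_rX {s s' : Lev A B} (h : s.1 ≤ s'.1) (x : KT A B) : rXX s (rX s' x) = rX s x :=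
  Subtype.ext (rr_rr h.1 h.2 x)

theorem rXX_rXX {s s' : Lev A B} (h : s.1 ≤ s'.1) (x : XS A B) : rXX s (rXX s' x) = rXX s x :=
  rX_rX h x.1

/-- Apply a map to the letters of a word. -/
def wmap {X Y : Type*} (f : X → Y) {n : ℕ} (v : Fin n → X × Bool) : Fin n → Y × Bool :=
  fun i => (f (v i).1, (v i).2)

theorem word_wmap {X Y : Type*} (f : X → Y) {n : ℕ} (v : Fin n → X × Bool) :
    word (wmap f v) = FreeGroup.map f (word v) := by
  show FreeGroup.mk (List.ofFn (wmap f v)) = FreeGroup.map f (FreeGroup.mk (List.ofFn v))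
  rw [FreeGroup.map.mk, List.map_ofFn]
  rfl

variable [TopologicalSpace B]

/-- Continuity on the compact pieces. -/
def HC (g : FT (XS A B) → ℝ) : Prop :=
  ∀ (n : ℕ) (s : Lev A B),
    Continuous (fun v : Fin n → (CS s) × Bool => g (word (wmap (toX s) v)))

theorem continuous_toX (s : Lev A B) : Continuous (toX s) := by
  apply continuous_induced_rng.2
  exact continuous_psi.comp continuous_subtype_val

theorem HC_of_k [OrderTopology B] (g : FT (XS A B) → ℝ)
    (hg : ∀ C : Set (FT (XS A B)), IsCompact C → ContinuousOn g C) : HC g := by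
  intro n s
  have : CompactSpace (CS s) := isCompact_iff_compactSpace.1 (CC_compact _ _)
  have h1 : Continuous (fun v : Fin n → (CS s) × Bool => word (wmap (toX s) v)) := by
    apply (continuous_word n).comp
    apply continuous_pi
    intro i
    exact ((continuous_toX s).comp (continuous_fst.comp (continuous_apply i))).prodMk
      (continuous_snd.comp (continuous_apply i))
  have h2 := hg _ (isCompact_range h1)
  exact h2.comp_continuous h1 (fun v => mem_range_self v)

end

section
variable {A B : Type*} [CompleteLinearOrder A] [CompleteLinearOrder B]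
  [TopologicalSpace A] [TopologicalSpace B]

omit [TopologicalSpace B] in
theorem exists_lev (hB : Big A B) (x : XS A B) : ∃ s : Lev A B, x.1 ∈ CS s := by
  classical
  obtain ⟨⟨γ, hγ, h1⟩, h2⟩ := x.2
  let f : Idx A → B := fun i => if (x.1 i).2 = false then (x.1 i).1 else ⊥
  have hf : ∀ i, f i < ⊤ := by
    intro i
    by_cases h : (x.1 i).2 = false
    · simp only [f, h, if_true]; exact h2 i h
    · simp only [f, h]; exact hB.b0
  refine ⟨⟨(γ, ⨆ i, f i), hγ, hB.b3 f hf⟩, h1, fun i hi => ?_⟩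
  refine le_trans ?_ (le_iSup f i)
  simp only [f, hi, if_true]
  exact le_refl _

/-- The join of two levels. -/
def ljoin (s t : Lev A B) : Lev A B :=
  ⟨s.1 ⊔ t.1, max_lt s.2.1 t.2.1, max_lt s.2.2 t.2.2⟩

omit [TopologicalSpace A] [TopologicalSpace B] in
theorem le_ljoin_left (s t : Lev A B) : s.1 ≤ (ljoin s t).1 := le_sup_left
omit [TopologicalSpace A] [TopologicalSpace B] in
theorem le_ljoin_right (s t : Lev A B) : t.1 ≤ (ljoin s t).1 := le_sup_right

omit [TopologicalSpace A] [TopologicalSpace B] in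
theorem CS_mono {s t : Lev A B} (h : s.1 ≤ t.1) : CS s ⊆ CS t := CC_mono h.1 h.2

omit [TopologicalSpace B] in
theorem exists_lev_fin (hB : Big A B) {n : ℕ} (x : Fin n → XS A B) (t : Lev A B) :
    ∃ s : Lev A B, t.1 ≤ s.1 ∧ ∀ i, (x i).1 ∈ CS s := by
  induction n with
  | zero => exact ⟨t, le_refl _, fun i => i.elim0⟩
  | succ n ih =>
    obtain ⟨s, hs1, hs2⟩ := ih (fun i => x i.succ)
    obtain ⟨s', hs'⟩ := exists_lev hB (x 0)
    refine ⟨ljoin s s', hs1.trans (le_ljoin_left _ _), fun i => ?_⟩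
    refine Fin.cases ?_ (fun j => ?_) i
    · exact CS_mono (le_ljoin_right _ _) hs'
    · exact CS_mono (le_ljoin_left _ _) (hs2 j)

/-- The supremum of a sequence of levels. -/
noncomputable def lsup (hB : Big A B) (s : ℕ → Lev A B) : Lev A B :=
  ⟨(⨆ k, (s k).1.1, ⨆ k, (s k).1.2), hB.a1 _ (fun k => (s k).2.1), hB.b1 _ (fun k => (s k).2.2)⟩

omit [TopologicalSpace B] in
theorem le_lsup (hB : Big A B) (s : ℕ → Lev A B) (k : ℕ) : (s k).1 ≤ (lsup hB s).1 :=
  ⟨le_iSup (fun k => (s k).1.1) k, le_iSup (fun k => (s k).1.2) k⟩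

variable [OrderTopology B]

theorem approx (hB : Big A B) (g : FT (XS A B) → ℝ) (hg : HC g) (n : ℕ) (ε : ℝ) (hε : 0 < ε) :
    ∃ s : Lev A B, ∀ v : Fin n → XS A B × Bool,
      |g (word v) - g (word (wmap (rXX s) v))| < ε := by
  by_contra hcon
  push Not at hcon
  choose v hv using hcon
  have hnext : ∀ s : Lev A B, ∃ s' : Lev A B, s.1 ≤ s'.1 ∧ ∀ i, (v s i).1.1 ∈ CS s' :=
    fun s => exists_lev_fin hB (fun i => (v s i).1) s
  choose nx hnx1 hnx2 using hnext
  let st : ℕ → Lev A B := fun k => Nat.rec ⟨(⊥, ⊥), hB.a0, hB.b0⟩ (fun _ s => nx s) k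
  have hst : ∀ k, st (k + 1) = nx (st k) := fun k => rfl
  have hmono : Monotone (fun k => (st k).1) :=
    monotone_nat_of_le_succ (fun k => by rw [hst]; exact hnx1 _)
  set t := lsup hB st with ht
  have hmem : ∀ k i, (v (st k) i).1.1 ∈ CS t := fun k i =>
    CS_mono (le_lsup hB st (k + 1)) (by rw [hst]; exact hnx2 _ i)
  let Y := Fin n → (CS t) × Bool
  have : CompactSpace (CS t) := isCompact_iff_compactSpace.1 (CC_compact _ _)
  let y : ℕ → Y := fun k i => (⟨(v (st k) i).1.1, hmem k i⟩, (v (st k) i).2)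
  let z : ℕ → Y := fun k i => (⟨(rXX (st k) (v (st k) i).1).1,
    CS_mono (le_lsup hB st k) (rr_mem _ _ _)⟩, (v (st k) i).2)
  let G : Y → ℝ := fun w => g (word (wmap (toX t) w))
  have hG : Continuous G := hg n t
  have hGy : ∀ k, G (y k) = g (word (v (st k))) := fun k => rfl
  have hGz : ∀ k, G (z k) = g (word (wmap (rXX (st k)) (v (st k)))) := fun k => rfl
  let U : Ultrafilter ℕ := hyperfilter ℕ
  have hU : (U : Filter ℕ) ≤ atTop := Nat.hyperfilter_le_atTop
  obtain ⟨y0, -, hy0⟩ := isCompact_univ.ultrafilter_le_nhds (U.map y) (by simp)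
  have hy1 : Tendsto y U (𝓝 y0) := hy0
  have hz1 : Tendsto z U (𝓝 y0) := by
    rw [tendsto_pi_nhds]
    intro i
    rw [nhds_prod_eq]
    apply Tendsto.prodMk
    · rw [tendsto_subtype_rng, tendsto_pi_nhds]
      intro j
      show Tendsto (fun k => rr (st k).1.1 (st k).1.2 (v (st k) i).1.1 j) U (𝓝 ((y0 i).1.1 j))
      have hyj : Tendsto (fun k => (v (st k) i).1.1 j) U (𝓝 ((y0 i).1.1 j)) := by
        have h1 : Continuous (fun w : Y => (w i).1.1 j) := (continuous_apply j).comp
          (continuous_subtype_val.comp (continuous_fst.comp (continuous_apply i)))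
        exact (h1.tendsto y0).comp hy1
      by_cases hj : j.1 < t.1.1
      · obtain ⟨k0, hk0⟩ := lt_iSup_iff.1 (show j.1 < ⨆ k, (st k).1.1 from hj)
        have hev : ∀ᶠ k in (U : Filter ℕ), j.1 < (st k).1.1 := by
          apply hU
          filter_upwards [eventually_ge_atTop k0] with k hk
          exact hk0.trans_le (hmono hk).1
        have hβ : Tendsto (fun k => (st k).1.2) U (𝓝 t.1.2) := by
          have h1 : Tendsto (fun k => (st k).1.2) atTop (𝓝 (⨆ k, (st k).1.2)) :=
            tendsto_atTop_iSup (fun a b hab => (hmono hab).2)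
          exact h1.mono_left hU
        have h2 : Tendsto (fun k => rho (st k).1.2 ((v (st k) i).1.1 j)) U
            (𝓝 (rho t.1.2 ((y0 i).1.1 j))) :=
          (continuous_rho.tendsto (t.1.2, (y0 i).1.1 j)).comp (hβ.prodMk_nhds hyj)
        have h3 : rho t.1.2 ((y0 i).1.1 j) = (y0 i).1.1 j := by
          have h4 := (y0 i).1.2.2 j
          unfold rho
          cases hb : ((y0 i).1.1 j).2
          · apply Prod.ext
            · simp only [Bool.false_eq_true, if_false]
              exact min_eq_left (h4 hb)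
            · exact hb.symm
          · apply Prod.ext
            · simp
            · exact hb.symm
        rw [h3] at h2
        refine h2.congr' ?_
        filter_upwards [hev] with k hk
        simp [rr, hk]
      · have h5 : (y0 i).1.1 j = (⊤, true) := (y0 i).1.2.1 j (not_lt.1 hj)
        rw [h5]
        have h6 : ∀ k, rr (st k).1.1 (st k).1.2 (v (st k) i).1.1 j = (⊤, true) := by
          intro k
          have h7 : ¬ j.1 < (st k).1.1 := fun h => hj (h.trans_le (le_lsup hB st k).1)
          simp [rr, h7]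
        simp only [h6]
        exact tendsto_const_nhds
    · have h1 : Continuous (fun w : Y => (w i).2) := by fun_prop
      exact (h1.tendsto y0).comp hy1
  have hdiff : Tendsto (fun k => |G (y k) - G (z k)|) U (𝓝 |G y0 - G y0|) :=
    (((hG.tendsto y0).comp hy1).sub ((hG.tendsto y0).comp hz1)).abs
  rw [sub_self, abs_zero] at hdiff
  have hge : ∀ᶠ k in (U : Filter ℕ), ε ≤ |G (y k) - G (z k)| :=
    Eventually.of_forall (fun k => hv (st k))
  have := ge_of_tendsto hdiff hge
  linarith

omit [TopologicalSpace A] [TopologicalSpace B] [OrderTopology B] in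
theorem approx_mono (g : FT (XS A B) → ℝ) (n : ℕ) (ε : ℝ) (s s' : Lev A B) (hs : s.1 ≤ s'.1)
    (h : ∀ v : Fin n → XS A B × Bool, |g (word v) - g (word (wmap (rXX s) v))| < ε)
    (v : Fin n → XS A B × Bool) : |g (word v) - g (word (wmap (rXX s') v))| < 2 * ε := by
  have h1 := h v
  have h2 := h (wmap (rXX s') v)
  have h3 : wmap (rXX s) (wmap (rXX s') v) = wmap (rXX s) v := by
    funext i
    simp only [wmap, rXX_rXX hs]
  rw [h3] at h2
  rw [abs_lt] at h1 h2 ⊢
  constructor <;> linarith [h1.1, h1.2, h2.1, h2.2]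

/-- **The extension lemma.** -/
theorem ext_main (hB : Big A B) (g : FT (XS A B) → ℝ) (hg : HC g) :
    ∃ s : Lev A B, ∀ s' : Lev A B, s.1 ≤ s'.1 → ∀ w : FT (XS A B),
      g w = g (FreeGroup.map (rXX s') w) := by
  have h1 : ∀ p : ℕ, ∃ s : Lev A B, ∀ v : Fin p.unpair.1 → XS A B × Bool,
      |g (word v) - g (word (wmap (rXX s) v))| < 1 / ((p.unpair.2 : ℝ) + 1) :=
    fun p => approx hB g hg _ _ (by positivity)
  choose s hs using h1
  refine ⟨lsup hB s, fun s' hs' w => ?_⟩
  obtain ⟨⟨n, v⟩, rfl⟩ := wq_surjective w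
  have h2 : ∀ k : ℕ, |g (word v) - g (word (wmap (rXX s') v))| < 2 * (1 / ((k : ℝ) + 1)) := by
    intro k
    have h3 := hs (Nat.pair n k)
    have h4 : (Nat.pair n k).unpair = (n, k) := Nat.unpair_pair n k
    have h5 : ∀ v : Fin n → XS A B × Bool,
        |g (word v) - g (word (wmap (rXX (s (Nat.pair n k))) v))| < 1 / ((k : ℝ) + 1) := by
      rw [h4] at h3
      exact h3
    exact approx_mono g n _ _ s' ((le_lsup hB s _).trans hs') h5 v
  have h3 : g (word v) = g (word (wmap (rXX s') v)) := by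
    have h4 : |g (word v) - g (word (wmap (rXX s') v))| ≤ 0 := by
      have h5 : Tendsto (fun k : ℕ => 2 * (1 / ((k : ℝ) + 1))) atTop (𝓝 (2 * 0)) :=
        tendsto_one_div_add_atTop_nhds_zero_nat.const_mul 2
      rw [mul_zero] at h5
      exact ge_of_tendsto' h5 (fun k => (h2 k).le)
    have h6 := abs_eq_zero.1 (le_antisymm h4 (abs_nonneg _))
    linarith
  rw [word_wmap] at h3
  exact h3

end

end Pool.Agent.Lib.MP_547adb_gt
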