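import Mathlib
import Pool.Agent.Lib.MP_547adb_gt.Ext

/-!
# Null pairs
-/

set_option autoImplicit false

namespace Pool.Agent.Lib.MP_547adb_gt

open Set Topology Filter

section
variable {A B : Type*} [CompleteLinearOrder A] [CompleteLinearOrder B]

open Classical in
/-- The first path. -/
noncomputable def uu (s : Idx A → B) (γ : A) : KT A B :=
  fun i => if i.1 < γ then (s i, true) else (⊤, true)

open Classical in
/-- The second path. -/
noncomputable def vv (s : Idx A → B) (γ : A) : KT A B :=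
  fun i => if i.1 < γ then (s i, false) else (⊤, true)

theorem uu_InX (s : Idx A → B) (γ : A) (hγ : γ < ⊤) : InX (uu s γ) := by
  refine ⟨⟨γ, hγ, fun i hi => by simp [uu, not_lt.2 hi]⟩, fun i hi => ?_⟩
  exfalso
  unfold uu at hi
  split_ifs at hi

theorem vv_InX (s : Idx A → B) (hs : ∀ i, s i < ⊤) (γ : A) (hγ : γ < ⊤) : InX (vv s γ) := by
  refine ⟨⟨γ, hγ, fun i hi => by simp [vv, not_lt.2 hi]⟩, fun i hi => ?_⟩
  unfold vv at hi ⊢
  split_ifs at hi ⊢ with h
  exact hs i

/-- The first path in the space. -/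
noncomputable def uX (s : Idx A → B) (γ : A) (hγ : γ < ⊤) : XS A B := ⟨uu s γ, uu_InX s γ hγ⟩

/-- The second path in the space. -/
noncomputable def vX (s : Idx A → B) (hs : ∀ i, s i < ⊤) (γ : A) (hγ : γ < ⊤) : XS A B :=
  ⟨vv s γ, vv_InX s hs γ hγ⟩

theorem rX_uu (t : Lev A B) (s : Idx A → B) (γ : A) (h : t.1.1 ≤ γ) :
    rX t (uu s γ) = rX t (pt s true) := by
  apply Subtype.ext
  funext i
  show rr t.1.1 t.1.2 (uu s γ) i = rr t.1.1 t.1.2 (pt s true) i
  unfold rr
  by_cases hi : i.1 < t.1.1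
  · simp [hi, uu, pt, hi.trans_le h]
  · simp [hi]

theorem rX_vv (t : Lev A B) (s : Idx A → B) (γ : A) (h : t.1.1 ≤ γ) :
    rX t (vv s γ) = rX t (pt s false) := by
  apply Subtype.ext
  funext i
  show rr t.1.1 t.1.2 (vv s γ) i = rr t.1.1 t.1.2 (pt s false) i
  unfold rr
  by_cases hi : i.1 < t.1.1
  · simp [hi, vv, pt, hi.trans_le h]
  · simp [hi]

instance : IsDirectedOrder (Lev A B) := ⟨fun s t => ⟨ljoin s t, le_ljoin_left s t, le_ljoin_right s t⟩⟩

variable [TopologicalSpace A] [TopologicalSpace B] [OrderTopology B]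

omit [TopologicalSpace B] [OrderTopology B] in
theorem lev_nonempty (hB : Big A B) : Nonempty (Lev A B) := ⟨⟨(⊥, ⊥), hB.a0, hB.b0⟩⟩

theorem tendsto_rr (hB : Big A B) (x : KT A B) :
    Tendsto (fun t : Lev A B => rr t.1.1 t.1.2 x) atTop (𝓝 x) := by
  have := lev_nonempty hB
  rw [tendsto_pi_nhds]
  intro j
  have h1 : Tendsto (fun t : Lev A B => t.1.2) atTop (𝓝 ⊤) := by
    rw [tendsto_order]
    refine ⟨fun b hb => ?_, fun b hb => absurd hb not_top_lt⟩
    obtain ⟨b', hb1, hb2⟩ := hB.b2 b hb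
    filter_upwards [eventually_ge_atTop (⟨(⊥, b'), hB.a0, hb2⟩ : Lev A B)] with t ht
    exact hb1.trans_le ht.2
  have h2 : Tendsto (fun t : Lev A B => rho t.1.2 (x j)) atTop (𝓝 (rho ⊤ (x j))) :=
    (continuous_rho.tendsto (⊤, x j)).comp (h1.prodMk_nhds tendsto_const_nhds)
  have h3 : rho ⊤ (x j) = x j := by
    unfold rho
    apply Prod.ext
    · simp
    · rfl
  rw [h3] at h2
  refine h2.congr' ?_
  obtain ⟨a', ha1, ha2⟩ := hB.a2 j.1 j.2
  filter_upwards [eventually_ge_atTop (⟨(a', ⊥), ha2, hB.b0⟩ : Lev A B)] with t ht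
  have : j.1 < t.1.1 := ha1.trans_le ht.1
  simp [rr, this]

theorem tendsto_rX (hB : Big A B) (x : KT A B) (y : XS A B) (h : psi x = psi y.1) :
    Tendsto (fun t : Lev A B => rX t x) atTop (𝓝 y) := by
  rw [XS.isEmbedding_psi.isInducing.tendsto_nhds_iff]
  have h1 : Tendsto (fun t : Lev A B => psi (rr t.1.1 t.1.2 x)) atTop (𝓝 (psi x)) :=
    (continuous_psi.tendsto x).comp (tendsto_rr hB x)
  rw [h] at h1
  exact h1

/-- The crucial identity for continuous functions. -/
theorem null_identity (hB : Big A B) (h : FT (XS A B) → ℝ) (hh : Continuous h)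
    (t0 : Lev A B) (ht0 : ∀ w, h w = h (FreeGroup.map (rXX t0) w)) (s : Idx A → B) :
    h (FT.of (rX t0 (pt s true)) * (FT.of (rX t0 (pt s false)))⁻¹) = h 1 := by
  classical
  have := lev_nonempty hB
  set x : XS A B := uX s t0.1.1 t0.2.1 with hx
  let s' : Idx A → B := fun i => if i.1 < t0.1.1 then s i else ⊤
  have hx1 : x.1 = pt s' true := by
    funext i
    show uu s t0.1.1 i = (s' i, true)
    unfold uu
    simp only [s']
    split_ifs <;> rfl
  have hpsi : psi (pt s' false) = psi x.1 := by rw [hx1, psi_pt]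
  have h1 : Tendsto (fun t : Lev A B => h (FT.of x * (FT.of (rX t (pt s' false)))⁻¹)) atTop
      (𝓝 (h (FT.of x * (FT.of x)⁻¹))) := by
    have h2 : Continuous (fun y : XS A B => h (FT.of x * (FT.of y)⁻¹)) :=
      hh.comp (continuous_const.mul FT.continuous_of.inv)
    exact (h2.tendsto x).comp (tendsto_rX hB _ x hpsi)
  rw [mul_inv_cancel] at h1
  have h2 : ∀ᶠ t : Lev A B in atTop, h (FT.of x * (FT.of (rX t (pt s' false)))⁻¹) =
      h (FT.of (rX t0 (pt s true)) * (FT.of (rX t0 (pt s false)))⁻¹) := by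
    filter_upwards [eventually_ge_atTop t0] with t ht
    rw [ht0]
    congr 1
    have h3 : FreeGroup.map (rXX t0) (FT.of x * (FT.of (rX t (pt s' false)))⁻¹) =
        (FT.of (rXX t0 x) * (FT.of (rXX t0 (rX t (pt s' false))))⁻¹ : FT (XS A B)) := by
      show FreeGroup.map (rXX t0) (FreeGroup.of x * (FreeGroup.of (rX t (pt s' false)))⁻¹) =
        FreeGroup.of (rXX t0 x) * (FreeGroup.of (rXX t0 (rX t (pt s' false))))⁻¹
      simp
    refine h3.trans ?_
    have h4 : rXX t0 x = rX t0 (pt s true) := rX_uu t0 s _ (le_refl _)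
    have h5 : rXX t0 (rX t (pt s' false)) = rX t0 (pt s false) := by
      rw [rX_rX ht]
      apply Subtype.ext
      funext i
      show rr t0.1.1 t0.1.2 (pt s' false) i = rr t0.1.1 t0.1.2 (pt s false) i
      unfold rr
      by_cases hi : i.1 < t0.1.1
      · simp [hi, pt, s']
      · simp [hi]
    rw [h4, h5]
  exact tendsto_nhds_unique (tendsto_const_nhds.congr' (h2.mono fun _ h => h.symm)) h1

open Classical in
/-- The path of null pairs. -/
noncomputable def mm (s : Idx A → B) (hs : ∀ i, s i < ⊤) (γ : A) : FT (XS A B) :=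
  if h : γ < ⊤ then FT.of (uX s γ h) * (FT.of (vX s hs γ h))⁻¹ else 1

omit [TopologicalSpace A] [TopologicalSpace B] [OrderTopology B] in
theorem map_mm (s : Idx A → B) (hs : ∀ i, s i < ⊤) (t0 : Lev A B) (γ : A) (h1 : t0.1.1 ≤ γ)
    (h2 : γ < ⊤) : FreeGroup.map (rXX t0) (mm s hs γ) =
      (FT.of (rX t0 (pt s true)) * (FT.of (rX t0 (pt s false)))⁻¹ : FT (XS A B)) := by
  have h3 : mm s hs γ = FT.of (uX s γ h2) * (FT.of (vX s hs γ h2))⁻¹ := by simp [mm, h2]
  rw [h3, ← rX_uu t0 s γ h1, ← rX_vv t0 s γ h1]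
  show FreeGroup.map (rXX t0) (FreeGroup.of (uX s γ h2) * (FreeGroup.of (vX s hs γ h2))⁻¹) =
    FreeGroup.of (rX t0 (uu s γ)) * (FreeGroup.of (rX t0 (vv s γ)))⁻¹
  simp
  rfl

theorem continuous_k {Y : Type*} [TopologicalSpace Y] (g : Y → ℝ) (hg : Continuous g) :
    ∀ C : Set Y, IsCompact C → ContinuousOn g C := fun _ _ => hg.continuousOn

theorem mm_eventually (hB : Big A B) (s : Idx A → B) (hs : ∀ i, s i < ⊤)
    (h : FT (XS A B) → ℝ) (hh : Continuous h) :
    ∃ γ0 : A, γ0 < ⊤ ∧ ∀ γ, γ0 ≤ γ → h (mm s hs γ) = h 1 := by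
  obtain ⟨t0, ht0⟩ := ext_main hB h (HC_of_k h (continuous_k h hh))
  refine ⟨t0.1.1, t0.2.1, fun γ hγ => ?_⟩
  by_cases h2 : γ < ⊤
  · rw [ht0 t0 (le_refl _), map_mm s hs t0 γ hγ h2]
    exact null_identity hB h hh t0 (ht0 t0 (le_refl _)) s
  · simp [mm, h2]

variable [OrderTopology A]

omit [TopologicalSpace B] [OrderTopology B] in
theorem continuous_ite_lt (hB : Big A B) {Z : Type*} [TopologicalSpace Z] (i : A) (a b : Z)
    [DecidablePred (fun γ => i < γ)] :
    Continuous (fun γ : A => if i < γ then a else b) := by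
  rw [continuous_iff_continuousAt]
  intro γ
  by_cases h : i < γ
  · apply (continuousAt_const (y := a)).congr
    filter_upwards [Ioi_mem_nhds h] with δ hδ
    have hδ' : i < δ := hδ
    simp [hδ']
  · apply (continuousAt_const (y := b)).congr
    filter_upwards [(hB.a3 i).mem_nhds (not_lt.1 h)] with δ hδ
    have hδ' : ¬ i < δ := not_lt.2 hδ
    simp [hδ']

omit [OrderTopology B] in
theorem continuous_uu (hB : Big A B) (s : Idx A → B) : Continuous (uu s) :=
  continuous_pi (fun i => continuous_ite_lt hB i.1 _ _)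

omit [OrderTopology B] in
theorem continuous_vv (hB : Big A B) (s : Idx A → B) : Continuous (vv s) :=
  continuous_pi (fun i => continuous_ite_lt hB i.1 _ _)

theorem continuous_mm (hB : Big A B) (s : Idx A → B) (hs : ∀ i, s i < ⊤) :
    Continuous (mm s hs) := by
  rw [continuous_iff_continuousAt]
  intro γ
  by_cases hγ : γ < ⊤
  · have h1 : ContinuousOn (mm s hs) (Iio ⊤) := by
      rw [continuousOn_iff_continuous_domRestrict]
      have h2 : (Iio ⊤).domRestrict (mm s hs) = fun δ : Iio (⊤ : A) =>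
          FT.of (uX s δ.1 δ.2) * (FT.of (vX s hs δ.1 δ.2))⁻¹ := by
        funext δ
        have h3 : δ.1 < ⊤ := δ.2
        show (if h : δ.1 < ⊤ then FT.of (uX s δ.1 h) * (FT.of (vX s hs δ.1 h))⁻¹ else 1) = _
        rw [dif_pos h3]
      rw [h2]
      have h3 : Continuous (fun δ : Iio (⊤ : A) => uX s δ.1 δ.2) := by
        apply continuous_induced_rng.2
        exact continuous_psi.comp ((continuous_uu hB s).comp continuous_subtype_val)
      have h4 : Continuous (fun δ : Iio (⊤ : A) => vX s hs δ.1 δ.2) := by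
        apply continuous_induced_rng.2
        exact continuous_psi.comp ((continuous_vv hB s).comp continuous_subtype_val)
      exact (FT.continuous_of.comp h3).mul (FT.continuous_of.comp h4).inv
    exact h1.continuousAt (Iio_mem_nhds hγ)
  · have htop : γ = ⊤ := not_lt_top_iff.1 hγ
    subst htop
    have h1 : mm s hs ⊤ = 1 := by simp [mm]
    rw [ContinuousAt, h1]
    intro U hU
    obtain ⟨O, hOU, hO, h1O⟩ := mem_nhds_iff.1 hU
    obtain ⟨f, hf, hf0, hf1⟩ := CompletelyRegularSpace.completely_regular (1 : FT (XS A B)) Oᶜ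
      hO.isClosed_compl (by simpa using h1O)
    obtain ⟨γ0, hγ0, h2⟩ := mm_eventually hB s hs (fun w => (f w : ℝ))
      (continuous_subtype_val.comp hf)
    have h3 : Ioi γ0 ∈ 𝓝 (⊤ : A) := Ioi_mem_nhds hγ0
    refine Filter.mem_map.2 (Filter.mem_of_superset h3 (fun δ hδ => ?_))
    apply hOU
    by_contra hcon
    have h4 : f (mm s hs δ) = 1 := hf1 hcon
    have h5 := h2 δ (le_of_lt hδ)
    simp only [h4, hf0] at h5
    norm_num at h5

end

end Pool.Agent.Lib.MP_547adb_gt
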