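import Mathlib
import Pool.Agent.Lib.MP_547adb_gt.Null

/-!
# The free topological group is a `k_R`-space
-/

set_option autoImplicit false

namespace Pool.Agent.Lib.MP_547adb_gt

open Set Topology Filter

section
variable {A B : Type*} [CompleteLinearOrder A] [CompleteLinearOrder B]

theorem map_rXX_map_rX (t : Lev A B) (w : FreeGroup (KT A B)) :
    FreeGroup.map (rXX t) (FreeGroup.map (rX t) w) = FreeGroup.map (rX t) w := by
  rw [FreeGroup.map.comp]
  congr 2
  funext x
  exact rX_rX (le_refl _) x

/-- The extension of `g` to the free group of the big compact space. -/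
noncomputable def gt (g : FreeGroup (XS A B) → ℝ) (t0 : Lev A B) (w : FreeGroup (KT A B)) : ℝ :=
  g (FreeGroup.map (rX t0) w)

/-- The identity map. -/
def iF {X : Type*} (w : FreeGroup X) : FT X := w

/-- The identity map. -/
def iK {X : Type*} (w : FreeGroup X) : KF X := w

variable [TopologicalSpace A] [TopologicalSpace B] [OrderTopology B]

omit [TopologicalSpace A] in
theorem continuous_gt (g : FreeGroup (XS A B) → ℝ) (hg : HC g) (t0 : Lev A B) :
    Continuous (fun w : KF (KT A B) => gt g t0 w) := by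
  rw [continuous_KF_iff]
  intro n
  have h1 : (fun w : Fin n → KT A B × Bool => gt g t0 (FreeGroup.mk (List.ofFn w))) =
      (fun v : Fin n → (CS t0) × Bool => g (word (wmap (toX t0) v))) ∘ (wmap (rS t0)) := by
    funext w
    show g (FreeGroup.map (rX t0) (word w)) = g (word (wmap (toX t0) (wmap (rS t0) w)))
    rw [← word_wmap]
    rfl
  rw [h1]
  apply (hg n t0).comp
  apply continuous_pi
  intro i
  apply Continuous.prodMk
  · apply Continuous.subtype_mk
    exact (continuous_rr _ _).comp (continuous_fst.comp (continuous_apply i))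
  · exact continuous_snd.comp (continuous_apply i)

variable [OrderTopology A]

/-- The identity for null pairs. -/
theorem key_identity (hB : Big A B) (g : FreeGroup (XS A B) → ℝ)
    (hg : ∀ C : Set (FT (XS A B)), IsCompact C → ContinuousOn (fun w : FT (XS A B) => g w) C)
    (t0 : Lev A B) (ht0 : ∀ w, g w = g (FreeGroup.map (rXX t0) w)) (s : Idx A → B)
    (hs : ∀ i, s i < ⊤) (w1 w2 : FreeGroup (XS A B)) :
    g (FreeGroup.map (rXX t0) w1 * (FreeGroup.of (rX t0 (pt s true)) *
      (FreeGroup.of (rX t0 (pt s false)))⁻¹) * FreeGroup.map (rXX t0) w2) = g (w1 * w2) := by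
  have h1 : Continuous (fun γ : A => iF w1 * mm s hs γ * iF w2) :=
    (continuous_const.mul (continuous_mm hB s hs)).mul continuous_const
  have h2 : Continuous (fun γ : A => g (iF w1 * mm s hs γ * iF w2)) :=
    (hg _ (isCompact_range h1)).comp_continuous h1 (fun γ => mem_range_self γ)
  have hne : Nonempty (Idx A) := ⟨⟨⊥, hB.a0⟩⟩
  have h3 : Tendsto (fun i : Idx A => i.1) atTop (𝓝 ⊤) := by
    rw [tendsto_order]
    refine ⟨fun a ha => ?_, fun a ha => absurd ha not_top_lt⟩
    obtain ⟨a', ha1, ha2⟩ := hB.a2 a ha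
    filter_upwards [eventually_ge_atTop (⟨a', ha2⟩ : Idx A)] with i hi
    exact ha1.trans_le hi
  have h5 : mm s hs ⊤ = 1 := by simp [mm]
  have h4 : Tendsto (fun i : Idx A => g (iF w1 * mm s hs i.1 * iF w2)) atTop
      (𝓝 (g (w1 * w2))) := by
    have h6 : Tendsto (fun i : Idx A => g (iF w1 * mm s hs i.1 * iF w2)) atTop
      (𝓝 (g (iF w1 * mm s hs ⊤ * iF w2))) := (h2.tendsto ⊤).comp h3
    have h7 : iF w1 * mm s hs ⊤ * iF w2 = iF (w1 * w2) := by
      rw [h5, mul_one]; rfl
    rw [h7] at h6
    exact h6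
  have h6 : ∀ᶠ i : Idx A in atTop, g (iF w1 * mm s hs i.1 * iF w2) =
      g (FreeGroup.map (rXX t0) w1 * (FreeGroup.of (rX t0 (pt s true)) *
      (FreeGroup.of (rX t0 (pt s false)))⁻¹) * FreeGroup.map (rXX t0) w2) := by
    filter_upwards [eventually_ge_atTop (⟨t0.1.1, t0.2.1⟩ : Idx A)] with i hi
    refine (ht0 (iF w1 * mm s hs i.1 * iF w2)).trans (congrArg g ?_)
    have h8 := map_mm s hs t0 i.1 hi i.2
    have h9 : ∀ m : FreeGroup (XS A B), FreeGroup.map (rXX t0) (w1 * m * w2) =
        FreeGroup.map (rXX t0) w1 * FreeGroup.map (rXX t0) m * FreeGroup.map (rXX t0) w2 := by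
      intro m
      rw [map_mul, map_mul]
    refine Eq.trans (h9 (mm s hs i.1)) ?_
    rw [h8]
    rfl
  exact tendsto_nhds_unique (tendsto_const_nhds.congr' (h6.mono fun _ h => h.symm)) h4

theorem gt_invariant (hB : Big A B) (g : FreeGroup (XS A B) → ℝ)
    (hg : ∀ C : Set (FT (XS A B)), IsCompact C → ContinuousOn (fun w : FT (XS A B) => g w) C)
    (t0 : Lev A B) (ht0 : ∀ w, g w = g (FreeGroup.map (rXX t0) w)) (s : Idx A → B)
    (w1 w2 : FreeGroup (KT A B)) :
    gt g t0 (w1 * (FreeGroup.of (pt s true) * (FreeGroup.of (pt s false))⁻¹) * w2) =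
      gt g t0 (w1 * w2) := by
  -- first the case of small `s`
  have h1 : ∀ s : Idx A → B, (∀ i, s i < ⊤) →
      gt g t0 (w1 * (FreeGroup.of (pt s true) * (FreeGroup.of (pt s false))⁻¹) * w2) =
      gt g t0 (w1 * w2) := by
    intro s hs
    have h2 := key_identity hB g hg t0 ht0 s hs (FreeGroup.map (rX t0) w1)
      (FreeGroup.map (rX t0) w2)
    rw [map_rXX_map_rX, map_rXX_map_rX] at h2
    unfold gt
    rw [map_mul, map_mul, map_mul, map_mul, map_inv, FreeGroup.map.of, FreeGroup.map.of]
    exact h2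
  have hne : Nonempty {b : B // b < ⊤} := ⟨⟨⊥, hB.b0⟩⟩
  have h3 : Tendsto (fun b : {b : B // b < ⊤} => b.1) atTop (𝓝 ⊤) := by
    rw [tendsto_order]
    refine ⟨fun a ha => ?_, fun a ha => absurd ha not_top_lt⟩
    obtain ⟨a', ha1, ha2⟩ := hB.b2 a ha
    filter_upwards [eventually_ge_atTop (⟨a', ha2⟩ : {b : B // b < ⊤})] with i hi
    exact ha1.trans_le hi
  have h4 : Tendsto (fun b : {b : B // b < ⊤} => (fun i => min (s i) b.1 : Idx A → B)) atTop
      (𝓝 s) := by
    rw [tendsto_pi_nhds]
    intro i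
    have h5 : Tendsto (fun b : {b : B // b < ⊤} => min (s i) b.1) atTop (𝓝 (min (s i) ⊤)) :=
      tendsto_const_nhds.min h3
    rw [min_eq_left le_top] at h5
    exact h5
  have hpt : ∀ b : Bool, Continuous (fun s : Idx A → B => pt s b) := by
    intro b
    apply continuous_pi
    intro i
    exact (continuous_apply i).prodMk continuous_const
  have h5 : Continuous (fun s : Idx A → B =>
      gt g t0 (w1 * (FreeGroup.of (pt s true) * (FreeGroup.of (pt s false))⁻¹) * w2)) := by
    have h7 : Continuous (fun s : Idx A → B => iK w1 * (kof (pt s true) *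
        (kof (pt s false))⁻¹) * iK w2) :=
      (continuous_const.mul ((continuous_kof.comp (hpt true)).mul
        (continuous_kof.comp (hpt false)).inv)).mul continuous_const
    exact (continuous_gt g (HC_of_k g hg) t0).comp h7
  have h6 := (h5.tendsto s).comp h4
  refine tendsto_nhds_unique h6 (tendsto_const_nhds.congr' (Eventually.of_forall ?_))
  intro b
  exact (h1 _ (fun i => (min_le_right _ _).trans_lt b.2)).symm

theorem gt_tau (hB : Big A B) (g : FreeGroup (XS A B) → ℝ)
    (hg : ∀ C : Set (FT (XS A B)), IsCompact C → ContinuousOn (fun w : FT (XS A B) => g w) C)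
    (t0 : Lev A B) (ht0 : ∀ w, g w = g (FreeGroup.map (rXX t0) w)) (τ : KT A B → KT A B)
    (hτ : ∀ x, psi (τ x) = psi x) (w : FreeGroup (KT A B)) : ∀ w1 w2 : FreeGroup (KT A B),
    gt g t0 (w1 * FreeGroup.map τ w * w2) = gt g t0 (w1 * w * w2) := by
  have hab : ∀ (s : Idx A → B) (w1 w2 : FreeGroup (KT A B)),
      gt g t0 (w1 * FreeGroup.of (pt s true) * w2) =
        gt g t0 (w1 * FreeGroup.of (pt s false) * w2) := by
    intro s w1 w2
    have h1 := gt_invariant hB g hg t0 ht0 s w1 (FreeGroup.of (pt s false) * w2)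
    have h2 : w1 * (FreeGroup.of (pt s true) * (FreeGroup.of (pt s false))⁻¹) *
        (FreeGroup.of (pt s false) * w2) = w1 * FreeGroup.of (pt s true) * w2 := by group
    rw [h2, ← mul_assoc] at h1
    exact h1
  have hab' : ∀ (s : Idx A → B) (w1 w2 : FreeGroup (KT A B)),
      gt g t0 (w1 * (FreeGroup.of (pt s true))⁻¹ * w2) =
        gt g t0 (w1 * (FreeGroup.of (pt s false))⁻¹ * w2) := by
    intro s w1 w2
    have h1 := gt_invariant hB g hg t0 ht0 s (w1 * (FreeGroup.of (pt s true))⁻¹) w2
    have h2 : w1 * (FreeGroup.of (pt s true))⁻¹ * (FreeGroup.of (pt s true) *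
        (FreeGroup.of (pt s false))⁻¹) * w2 = w1 * (FreeGroup.of (pt s false))⁻¹ * w2 := by group
    rw [h2] at h1
    exact h1.symm
  induction w using FreeGroup.induction_on with
  | C1 => intro w1 w2; simp
  | of x =>
    intro w1 w2
    have h1 : FreeGroup.map τ (FreeGroup.of x) = FreeGroup.of (τ x) := FreeGroup.map.of
    rw [h1]
    rcases psi_inj' _ _ (hτ x) with h | ⟨s, ⟨h2, h3⟩ | ⟨h2, h3⟩⟩
    · rw [h]
    · rw [h2, h3]; exact hab s w1 w2
    · rw [h2, h3]; exact (hab s w1 w2).symm
  | inv_of x _ =>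
    intro w1 w2
    have h1 : FreeGroup.map τ (FreeGroup.of x)⁻¹ = (FreeGroup.of (τ x))⁻¹ := by
      rw [map_inv]; congr 1
    rw [h1]
    rcases psi_inj' _ _ (hτ x) with h | ⟨s, ⟨h2, h3⟩ | ⟨h2, h3⟩⟩
    · rw [h]
    · rw [h2, h3]; exact hab' s w1 w2
    · rw [h2, h3]; exact (hab' s w1 w2).symm
  | mul x y hx hy =>
    intro w1 w2
    rw [map_mul]
    have h1 : w1 * (FreeGroup.map τ x * FreeGroup.map τ y) * w2 =
        w1 * FreeGroup.map τ x * (FreeGroup.map τ y * w2) := by group
    have h2 : w1 * x * (FreeGroup.map τ y * w2) = (w1 * x) * FreeGroup.map τ y * w2 := by group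
    have h3 : (w1 * x) * y * w2 = w1 * (x * y) * w2 := by group
    rw [h1, hx w1 _, h2, hy _ w2, h3]

/-- The compact quotient space. -/
abbrev KK (A B : Type*) [CompleteLinearOrder A] [CompleteLinearOrder B] :=
  Set.range (psi : KT A B → (Idx A → B) × (Idx A × Idx A → Bool))

/-- **`F(X)` is a `k_R`-space.** -/
theorem FT_isKR (hB : Big A B) : IsKR (FT (XS A B)) := by
  intro g hg
  obtain ⟨t0, ht0'⟩ := ext_main hB g (HC_of_k g hg)
  have ht0 := ht0' t0 (le_refl _)
  have : CompactSpace (KK A B) := isCompact_iff_compactSpace.1 (isCompact_range continuous_psi)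
  let ψ : KT A B → KK A B := fun x => ⟨psi x, mem_range_self x⟩
  have hψ : Continuous ψ := continuous_psi.subtype_mk _
  have hψs : Function.Surjective ψ := by
    rintro ⟨_, x, rfl⟩
    exact ⟨x, rfl⟩
  let σ : KK A B → KT A B := Function.surjInv hψs
  have hσ : ∀ y, ψ (σ y) = y := Function.surjInv_eq hψs
  let τ : KT A B → KT A B := fun x => σ (ψ x)
  have hτ : ∀ x, psi (τ x) = psi x := fun x => congrArg Subtype.val (hσ (ψ x))
  have hgt : ∀ w : FreeGroup (KT A B), gt g t0 (FreeGroup.map τ w) = gt g t0 w := by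
    intro w
    have := gt_tau hB g hg t0 ht0 τ hτ w 1 1
    simpa using this
  -- the descended function
  let gh : FreeGroup (KK A B) → ℝ := fun w => gt g t0 (FreeGroup.map σ w)
  have hgh : Continuous (fun w : KF (KK A B) => gh w) := by
    rw [continuous_KF_iff]
    intro n
    let P : (Fin n → KT A B × Bool) → (Fin n → KK A B × Bool) := wmap ψ
    have hP : Continuous P := by
      apply continuous_pi
      intro i
      exact (hψ.comp (continuous_fst.comp (continuous_apply i))).prodMk
        (continuous_snd.comp (continuous_apply i))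
    have hPs : Function.Surjective P := by
      intro v
      refine ⟨wmap σ v, ?_⟩
      funext i
      exact Prod.ext (hσ _) rfl
    have hPq : IsQuotientMap P := hP.isClosedMap.isQuotientMap hP hPs
    rw [hPq.continuous_iff]
    have h1 : ((fun w : Fin n → KK A B × Bool => gh (FreeGroup.mk (List.ofFn w))) ∘ P) =
        fun w : Fin n → KT A B × Bool => gt g t0 (FreeGroup.mk (List.ofFn w)) := by
      funext w
      have h5 : FreeGroup.map σ (word (wmap ψ w) : FreeGroup (KK A B)) =
          FreeGroup.map τ (word w : FreeGroup (KT A B)) := by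
        rw [word_wmap]
        exact FreeGroup.map.comp ψ σ _
      exact (congrArg (gt g t0) h5).trans (hgt (word w))
    rw [h1]
    exact (continuous_KF_iff _).1 (continuous_gt g (HC_of_k g hg) t0) n
  let j : XS A B → KK A B := fun x => ψ x.1
  have hj : Continuous j := by
    apply Continuous.subtype_mk
    exact XS.isEmbedding_psi.continuous
  have h2 := hgh.comp (continuous_toKF j hj)
  have h3 : ((fun w : KF (KK A B) => gh w) ∘ toKF j) = g := by
    funext w
    have h4 : ∀ w : FreeGroup (XS A B), FreeGroup.map σ (FreeGroup.map j w) =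
        FreeGroup.map τ (FreeGroup.map (fun x : XS A B => x.1) w) := by
      intro w
      rw [FreeGroup.map.comp, FreeGroup.map.comp]
      rfl
    have h5 : ∀ w : FreeGroup (XS A B),
        FreeGroup.map (rX t0) (FreeGroup.map (fun x : XS A B => x.1) w) =
        FreeGroup.map (rXX t0) w := by
      intro w
      rw [FreeGroup.map.comp]
      rfl
    calc gt g t0 (FreeGroup.map σ (FreeGroup.map j w))
        = gt g t0 (FreeGroup.map τ (FreeGroup.map (fun x : XS A B => x.1) w)) :=
          congrArg (gt g t0) (h4 w)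
      _ = gt g t0 (FreeGroup.map (fun x : XS A B => x.1) w) := hgt _
      _ = g (FreeGroup.map (rXX t0) w) := congrArg g (h5 w)
      _ = g w := (ht0 w).symm
  rw [h3] at h2
  exact h2

end

end Pool.Agent.Lib.MP_547adb_gt
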