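import Mathlib
import Pool.Agent.Lib.MP_547adb_gt.KR

/-!
# `X` and `F_1(X)` are not `k_R`-spaces
-/

set_option autoImplicit false

namespace Pool.Agent.Lib.MP_547adb_gt

open Set Topology Filter

section
variable {A B : Type*} [CompleteLinearOrder A] [CompleteLinearOrder B]
  [TopologicalSpace A] [TopologicalSpace B] [OrderTopology B]

/-- Compact sets of `X` are compact in the big space. -/
theorem isClosed_image_val (hB : Big A B) (T : Set (XS A B)) (hT : IsCompact T) :
    IsClosed (Subtype.val '' T : Set (KT A B)) := by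
  have hC : IsClosed ((psi : KT A B → _) ⁻¹' (XS.psi '' T)) :=
    (hT.image XS.isEmbedding_psi.continuous).isClosed.preimage continuous_psi
  have hTC : (Subtype.val '' T : Set (KT A B)) ⊆ (psi : KT A B → _) ⁻¹' (XS.psi '' T) := by
    rintro _ ⟨t, ht, rfl⟩
    exact ⟨t, ht, rfl⟩
  rw [← closure_subset_iff_isClosed]
  intro x hx
  obtain ⟨t, htT, htx⟩ : x ∈ (psi : KT A B → _) ⁻¹' (XS.psi '' T) := closure_minimal hTC hC hx
  have htx' : psi x = psi t.1 := htx.symm
  rcases psi_inj' x t.1 htx' with h | ⟨s, ⟨_, h2⟩ | ⟨h1, h2⟩⟩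
  · exact ⟨t, htT, h.symm⟩
  · exfalso
    have := t.2
    rw [h2] at this
    exact not_InX_pt s this
  · exfalso
    obtain ⟨γt, hγt, hγt2⟩ := t.2.1
    set i1 : Idx A := ⟨γt, hγt⟩ with hi1
    have hx1 : x i1 = (⊤, false) := by
      have h3 := hγt2 i1 (le_refl _)
      rw [h2] at h3
      have h4 : s i1 = ⊤ := congrArg Prod.fst h3
      rw [h1]
      exact Prod.ext h4 rfl
    have hex : ∀ b : {b : B // b < ⊤}, ∃ y : XS A B, y ∈ T ∧ b.1 < (y.1 i1).1 ∧
        (y.1 i1).2 = false := by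
      intro b
      have hO : IsOpen {y : KT A B | b.1 < (y i1).1 ∧ (y i1).2 = false} := by
        apply IsOpen.inter
        · exact isOpen_lt continuous_const (by fun_prop)
        · have : IsOpen ({false} : Set Bool) := isOpen_discrete _
          exact this.preimage (by fun_prop : Continuous (fun y : KT A B => (y i1).2))
      have hxO : x ∈ {y : KT A B | b.1 < (y i1).1 ∧ (y i1).2 = false} := by
        show b.1 < (x i1).1 ∧ (x i1).2 = false
        rw [hx1]
        exact ⟨b.2, rfl⟩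
      obtain ⟨_, hy1, ⟨y, hyT, rfl⟩⟩ := mem_closure_iff.1 hx _ hO hxO
      exact ⟨y, hyT, hy1.1, hy1.2⟩
    choose y hyT hy1 hy2 using hex
    have hγ : ∀ b, ∃ γ : A, γ < ⊤ ∧ ∀ i : Idx A, γ ≤ i.1 → (y b).1 i = (⊤, true) :=
      fun b => (y b).2.1
    choose γ hγ1 hγ2 using hγ
    have hpig : ∃ g : A, g < ⊤ ∧ ∀ b : {b : B // b < ⊤}, ∃ b' : {b : B // b < ⊤},
        b.1 ≤ b'.1 ∧ γ b' ≤ g := by
      by_contra hcon
      push Not at hcon
      have h3 : ∀ i : Idx A, ∃ b : {b : B // b < ⊤}, ∀ b' : {b : B // b < ⊤},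
          b.1 ≤ b'.1 → i.1 < γ b' := fun i => hcon i.1 i.2
      choose β hβ using h3
      have h4 : ⨆ i, (β i).1 < ⊤ := hB.b3 (fun i => (β i).1) (fun i => (β i).2)
      have h5 := hβ ⟨γ ⟨_, h4⟩, hγ1 _⟩ ⟨_, h4⟩ (le_iSup (fun i => (β i).1) _)
      exact lt_irrefl _ h5
    obtain ⟨g, hg1, hg2⟩ := hpig
    let Z : {b : B // b < ⊤} → Set (KT A B) := fun b =>
      ((psi : KT A B → _) ⁻¹' (XS.psi '' T)) ∩ ({z | b.1 ≤ (z i1).1} ∩ ({z | (z i1).2 = false} ∩
        ⋂ j : Idx A, ⋂ _ : g ≤ j.1, {z | z j = (⊤, true)}))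
    have hZc : ∀ b, IsClosed (Z b) := by
      intro b
      apply hC.inter
      apply IsClosed.inter
      · exact isClosed_le continuous_const (by fun_prop)
      · apply IsClosed.inter
        · exact isClosed_eq (by fun_prop) continuous_const
        · apply isClosed_iInter
          intro j
          apply isClosed_iInter
          intro _
          exact isClosed_eq (by fun_prop) continuous_const
    have hZn : ∀ b, (Z b).Nonempty := by
      intro b
      obtain ⟨b', hb1, hb2⟩ := hg2 b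
      refine ⟨(y b').1, hTC ⟨y b', hyT b', rfl⟩, hb1.trans (hy1 b').le, hy2 b', ?_⟩
      refine mem_iInter.2 fun j => mem_iInter.2 fun hj => ?_
      exact hγ2 b' j (hb2.trans hj)
    have hZd : Directed (· ⊇ ·) Z := by
      intro b b'
      rcases le_total b.1 b'.1 with h | h
      · exact ⟨b', fun z hz => ⟨hz.1, h.trans hz.2.1, hz.2.2⟩, fun z hz => hz⟩
      · exact ⟨b, fun z hz => hz, fun z hz => ⟨hz.1, h.trans hz.2.1, hz.2.2⟩⟩
    have hne : Nonempty {b : B // b < ⊤} := ⟨⟨⊥, hB.b0⟩⟩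
    obtain ⟨z, hz⟩ := IsCompact.nonempty_iInter_of_directed_nonempty_isCompact_isClosed Z hZd hZn
      (fun b => (hZc b).isCompact) hZc
    rw [mem_iInter] at hz
    have hz0 := hz ⟨⊥, hB.b0⟩
    have hztop : (z i1).1 = ⊤ := by
      by_contra h
      obtain ⟨b', hb1, hb2⟩ := hB.b2 _ (lt_top_iff_ne_top.2 h)
      exact absurd (hz ⟨b', hb2⟩).2.1 (not_le.2 hb1)
    have hzf : (z i1).2 = false := hz0.2.2.1
    have hzg : z ⟨g, hg1⟩ = (⊤, true) :=
      mem_iInter.1 (mem_iInter.1 hz0.2.2.2 ⟨g, hg1⟩) (le_refl _)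
    obtain ⟨t', ht'T, ht'z⟩ := hz0.1
    have htz' : psi z = psi t'.1 := ht'z.symm
    rcases psi_inj' z t'.1 htz' with h | ⟨s', ⟨h5, _⟩ | ⟨h5, _⟩⟩
    · have h6 := t'.2.2 i1 (by rw [← h]; exact hzf)
      rw [← h, hztop] at h6
      exact lt_irrefl _ h6
    · rw [h5] at hzf
      simp [pt] at hzf
    · rw [h5] at hzg
      simp [pt] at hzg

open Classical in
/-- The discontinuous function. -/
noncomputable def f0 (i0 : Idx A) (x : XS A B) : ℝ := if (x.1 i0).2 = true then 1 else 0

theorem f0_k (hB : Big A B) (i0 : Idx A) (T : Set (XS A B)) (hT : IsCompact T) :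
    ContinuousOn (f0 i0) T := by
  have hcl : ∀ b : Bool, IsClosed {x : XS A B | x ∈ T ∧ (x.1 i0).2 = b} := by
    intro b
    have h1 : IsCompact ((Subtype.val '' T : Set (KT A B)) ∩ {z | (z i0).2 = b}) :=
      ((isClosed_image_val hB T hT).inter
        (isClosed_eq (by fun_prop) continuous_const)).isCompact
    have h2 : {x : XS A B | x ∈ T ∧ (x.1 i0).2 = b} = XS.psi ⁻¹'
        (psi '' ((Subtype.val '' T : Set (KT A B)) ∩ {z | (z i0).2 = b})) := by
      ext x
      constructor
      · rintro ⟨h3, h4⟩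
        exact ⟨x.1, ⟨⟨x, h3, rfl⟩, h4⟩, rfl⟩
      · rintro ⟨_, ⟨⟨y, hy, rfl⟩, h4⟩, h5⟩
        have h6 : y = x := Subtype.ext (psi_injOn y.2 x.2 h5)
        rw [← h6]
        exact ⟨hy, h4⟩
    rw [h2]
    exact (h1.image continuous_psi).isClosed.preimage XS.isEmbedding_psi.continuous
  intro x hx
  have h1 : {y : XS A B | y ∈ T ∧ (y.1 i0).2 = !(x.1 i0).2}ᶜ ∈ 𝓝 x :=
    (hcl _).isOpen_compl.mem_nhds (by
      rintro ⟨_, h⟩
      cases h2 : (x.1 i0).2 <;> rw [h2] at h <;> simp at h)
  have h2 : ∀ᶠ y in 𝓝[T] x, f0 i0 y = f0 i0 x := by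
    filter_upwards [mem_nhdsWithin_of_mem_nhds h1, self_mem_nhdsWithin] with y hy hyT
    have h3 : (y.1 i0).2 = (x.1 i0).2 := by
      by_contra h4
      apply hy
      refine ⟨hyT, ?_⟩
      cases h5 : (y.1 i0).2 <;> cases h6 : (x.1 i0).2 <;> simp_all
    unfold f0
    rw [h3]
  exact (continuousWithinAt_const (b := f0 i0 x)).congr_of_eventuallyEq h2 rfl

theorem f0_not_continuous (hB : Big A B) : ¬ Continuous (f0 (A := A) (B := B) ⟨⊥, hB.a0⟩) := by
  intro hcon
  have := lev_nonempty hB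
  let x : XS A B := ⟨pt (fun _ => ⊤) true, ⟨⟨⊥, hB.a0, fun i _ => rfl⟩, fun i hi => by
    simp [pt] at hi⟩⟩
  have h1 : Tendsto (fun t : Lev A B => rX t (pt (fun _ => ⊤) false)) atTop (𝓝 x) :=
    tendsto_rX hB _ x (psi_pt _).symm
  have h2 : Tendsto (fun t : Lev A B => f0 (⟨⊥, hB.a0⟩ : Idx A) (rX t (pt (fun _ => ⊤) false)))
      atTop (𝓝 (f0 ⟨⊥, hB.a0⟩ x)) := (hcon.tendsto x).comp h1
  obtain ⟨a', ha1, ha2⟩ := hB.a2 ⊥ hB.a0
  have h3 : ∀ᶠ t : Lev A B in atTop,
      f0 (⟨⊥, hB.a0⟩ : Idx A) (rX t (pt (fun _ => (⊤ : B)) false)) = 0 := by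
    filter_upwards [eventually_ge_atTop (⟨(a', ⊥), ha2, hB.b0⟩ : Lev A B)] with t ht
    have h4 : (⊥ : A) < t.1.1 := ha1.trans_le ht.1
    have h5 : (rX t (pt (fun _ => (⊤ : B)) false)).1 ⟨⊥, hB.a0⟩ =
        rho t.1.2 ((⊤ : B), false) := by
      show rr t.1.1 t.1.2 (pt (fun _ => (⊤ : B)) false) ⟨⊥, hB.a0⟩ = _
      unfold rr
      simp [h4, pt]
    unfold f0
    rw [h5]
    simp [rho]
  have h4 : f0 (⟨⊥, hB.a0⟩ : Idx A) x = 1 := by simp [f0, x, pt]
  rw [h4] at h2
  have h5 := tendsto_nhds_unique (tendsto_const_nhds.congr' (h3.mono fun _ h => h.symm)) h2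
  norm_num at h5

theorem XS_not_isKR (hB : Big A B) : ¬ IsKR (XS A B) := fun h =>
  f0_not_continuous hB (h _ (fun T hT => f0_k hB _ T hT))

end

section
variable {X Y : Type*} [TopologicalSpace X] [TopologicalSpace Y]

/-- The `k_R`-property passes to clopen subspaces. -/
theorem IsKR.of_clopen (e : X → Y) (he : IsClosedEmbedding e) (ho : IsOpen (range e))
    (hY : IsKR Y) : IsKR X := by
  classical
  intro f hf
  have hinj := he.injective
  have hF : Continuous (Function.extend e f 0) := by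
    apply hY
    intro C hC y hy
    by_cases hyr : y ∈ range e
    · obtain ⟨x, rfl⟩ := hyr
      have h1 : ContinuousWithinAt f (e ⁻¹' C) x := hf _ (he.isCompact_preimage hC) x hy
      have h2 : 𝓝[C] (e x) = map e (𝓝[e ⁻¹' C] x) := by
        rw [he.isEmbedding.map_nhdsWithin_eq, image_preimage_eq_inter_range]
        exact (nhdsWithin_inter_of_mem' (mem_nhdsWithin_of_mem_nhds
          (ho.mem_nhds (mem_range_self x)))).symm
      show Tendsto _ (𝓝[C] (e x)) _
      rw [h2, tendsto_map'_iff, hinj.extend_apply]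
      have h3 : Function.extend e f 0 ∘ e = f := by
        funext z; exact hinj.extend_apply _ _ _
      rw [h3]
      exact h1
    · have h1 : ∀ᶠ z in 𝓝[C] y, Function.extend e f 0 z = Function.extend e f 0 y := by
        filter_upwards [mem_nhdsWithin_of_mem_nhds (he.isClosed_range.isOpen_compl.mem_nhds hyr)]
          with z hz
        rw [Function.extend_apply' _ _ _ (by simpa using hz),
          Function.extend_apply' _ _ _ (by simpa using hyr)]
        rfl
      exact (continuousWithinAt_const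
        (b := Function.extend e f 0 y)).congr_of_eventuallyEq h1 rfl
  have h4 : f = Function.extend e f 0 ∘ e := by
    funext z; exact (hinj.extend_apply _ _ _).symm
  rw [h4]
  exact hF.comp he.continuous

/-- The map from `X` to `F_1(X)`. -/
def toF1 (x : X) : FN X 1 := ⟨FT.of x, [(x, true)], le_refl _, rfl⟩

theorem toF1_range (h : IsEmbedding (FT.of (X := X))) :
    IsClosedEmbedding (toF1 (X := X)) ∧ IsOpen (range (toF1 (X := X))) := by
  let d : FT X →* Multiplicative ℤ := FT.lift (fun _ => Multiplicative.ofAdd 1)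
  have hd : Continuous d := FT.continuous_lift _ continuous_const
  have hrange : range (toF1 (X := X)) = (fun w : FN X 1 => d w.1) ⁻¹' {Multiplicative.ofAdd 1} := by
    ext ⟨w, L, hL, hw⟩
    constructor
    · rintro ⟨x, hx⟩
      have h1 : FT.of x = w := congrArg Subtype.val hx
      show d w = Multiplicative.ofAdd 1
      rw [← h1]
      exact FT.lift_of _ x
    · intro h1
      have h1' : d w = Multiplicative.ofAdd 1 := h1
      match L, hL with
      | [], _ =>
        exfalso
        have h2 : w = 1 := hw.symm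
        rw [h2, map_one] at h1'
        have := congrArg Multiplicative.toAdd h1'
        simp at this
      | [(x, b)], _ =>
        cases b
        · exfalso
          have h2 : w = (FT.of x)⁻¹ := hw.symm
          have h3 : d (FT.of x) = Multiplicative.ofAdd 1 := FT.lift_of _ x
          rw [h2, map_inv, h3] at h1'
          have := congrArg Multiplicative.toAdd h1'
          simp at this
        · exact ⟨x, Subtype.ext hw⟩
      | _ :: _ :: _, hL => simp at hL
  have hclopen : IsClopen (range (toF1 (X := X))) := by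
    rw [hrange]
    exact (isClopen_discrete _).preimage (hd.comp continuous_subtype_val)
  refine ⟨⟨?_, hclopen.isClosed⟩, hclopen.isOpen⟩
  have h1 : IsEmbedding (Subtype.val ∘ (toF1 (X := X))) := h
  exact IsEmbedding.of_comp (FT.continuous_of.subtype_mk _) continuous_subtype_val h1

end

end Pool.Agent.Lib.MP_547adb_gt
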