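import Mathlib
import Pool.Agent.Lib.MP_547adb_gt.NotKR

/-!
# Positive words: `X^n` as a clopen subset of `F_n(X)`
-/

set_option autoImplicit false

namespace Pool.Agent.Lib.MP_547adb_gt

open Set Topology Filter

/-- Lists of positive letters are irreducible. -/
theorem red_positive {X : Type*} {L c : List (X × Bool)} (h : ∀ p ∈ L, p.2 = true)
    (hr : FreeGroup.Red L c) : c = L := by
  rcases Relation.ReflTransGen.cases_head hr with h2 | ⟨d, hstep, _⟩
  · exact h2.symm
  · exfalso
    cases hstep with
    | @not L1 L2 x b =>
      have h3 : b = true := h (x, b) (by simp)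
      have h4 : (!b) = true := h (x, !b) (by simp)
      rw [h3] at h4
      simp at h4

theorem mk_positive_inj {X : Type*} {L L' : List (X × Bool)} (h : ∀ p ∈ L, p.2 = true)
    (h' : ∀ p ∈ L', p.2 = true) (he : FreeGroup.mk L = FreeGroup.mk L') : L = L' := by
  rw [FreeGroup.Red.exact] at he
  obtain ⟨c, hc1, hc2⟩ := he
  rw [← red_positive h hc1, ← red_positive h' hc2]

/-- The sign of a letter. -/
def sgn {X : Type*} (p : X × Bool) : ℤ := cond p.2 1 (-1)

theorem sum_sgn_le {X : Type*} (L : List (X × Bool)) : (L.map sgn).sum ≤ L.length := by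
  induction L with
  | nil => simp
  | cons p L ih =>
    simp only [List.map_cons, List.sum_cons, List.length_cons]
    have : sgn p ≤ 1 := by
      unfold sgn
      cases p.2 <;> simp
    push_cast
    linarith

theorem all_positive {X : Type*} (L : List (X × Bool)) (h : (L.map sgn).sum = L.length) :
    ∀ p ∈ L, p.2 = true := by
  induction L with
  | nil => simp
  | cons p L ih =>
    simp only [List.map_cons, List.sum_cons, List.length_cons] at h
    push_cast at h
    have h1 := sum_sgn_le L
    have h2 : sgn p = 1 ∧ (L.map sgn).sum = L.length := by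
      have h3 : sgn p = 1 ∨ sgn p = -1 := by
        unfold sgn
        cases p.2 <;> simp
      rcases h3 with h3 | h3
      · exact ⟨h3, by linarith⟩
      · exfalso; linarith
    intro q hq
    rcases List.mem_cons.1 hq with rfl | hq
    · have h3 := h2.1
      unfold sgn at h3
      cases h4 : q.2
      · rw [h4] at h3; simp at h3
      · rfl
    · exact ih h2.2 q hq

section
variable {X : Type*} [TopologicalSpace X]

/-- The exponent sum. -/
def deg : FT X →* Multiplicative ℤ := FT.lift (fun _ => Multiplicative.ofAdd 1)

theorem continuous_deg : Continuous (deg (X := X)) := FT.continuous_lift _ continuous_const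

omit [TopologicalSpace X] in
theorem deg_mk (L : List (X × Bool)) :
    deg (FreeGroup.mk L : FreeGroup X) = Multiplicative.ofAdd (L.map sgn).sum := by
  have h1 : deg (FreeGroup.mk L : FreeGroup X) = (L.map fun x => cond x.2
    (Multiplicative.ofAdd (1 : ℤ)) (Multiplicative.ofAdd (1 : ℤ))⁻¹).prod := FreeGroup.lift_mk
  have h2 : ∀ L : List (X × Bool), (L.map fun x => cond x.2
      (Multiplicative.ofAdd (1 : ℤ)) (Multiplicative.ofAdd (1 : ℤ))⁻¹).prod =
      Multiplicative.ofAdd (L.map sgn).sum := by
    intro L
    induction L with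
    | nil => rfl
    | cons p L ih =>
      have h3 : cond p.2 (Multiplicative.ofAdd (1 : ℤ)) (Multiplicative.ofAdd (1 : ℤ))⁻¹ =
          Multiplicative.ofAdd (sgn p) := by
        unfold sgn
        cases p.2 <;> rfl
      simp only [List.map_cons, List.prod_cons, List.sum_cons, ofAdd_add]
      rw [ih, h3]
  exact h1.trans (h2 L)

/-- Positive words of length `n`. -/
def toFn (n : ℕ) (x : Fin n → X) : FN X n :=
  ⟨word (fun i => (x i, true)), List.ofFn (fun i => (x i, true)), by simp, rfl⟩

theorem toFn_clopen {K : Type*} [TopologicalSpace K] [T2Space K] [CompactSpace K]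
    (f : X → K) (hf : IsEmbedding f) (n : ℕ) :
    IsClosedEmbedding (toFn (X := X) n) ∧ IsOpen (range (toFn (X := X) n)) := by
  have hpos : ∀ {Z : Type _} (x : Fin n → Z), ∀ p ∈ List.ofFn (fun i => (x i, true)),
      p.2 = true := by
    intro Z x p hp
    rw [List.mem_ofFn] at hp
    obtain ⟨i, rfl⟩ := hp
    rfl
  have hrange : range (toFn (X := X) n) =
      (fun w : FN X n => deg w.1) ⁻¹' {Multiplicative.ofAdd (n : ℤ)} := by
    ext ⟨w, L, hL, hw⟩
    constructor
    · rintro ⟨x, hx⟩
      have h1 : word (fun i => (x i, true)) = w := congrArg Subtype.val hx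
      show deg w = Multiplicative.ofAdd (n : ℤ)
      rw [← h1]
      refine (deg_mk _).trans ?_
      congr 1
      rw [List.map_ofFn, List.sum_ofFn]
      simp [sgn]
    · intro h1
      have h1' : deg w = Multiplicative.ofAdd (n : ℤ) := h1
      have h2 : deg w = Multiplicative.ofAdd (L.map sgn).sum := by
        rw [← hw]; exact deg_mk L
      have h3 : (L.map sgn).sum = (n : ℤ) := by
        rw [h2] at h1'
        exact Multiplicative.ofAdd.injective h1'
      have h4 := sum_sgn_le L
      have h5 : L.length = n := by
        have : (n : ℤ) ≤ L.length := by rw [← h3]; exact h4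
        omega
      subst h5
      have h6 := all_positive L h3
      refine ⟨fun i => (L.get i).1, Subtype.ext ?_⟩
      show FreeGroup.mk (List.ofFn (fun i => ((L.get i).1, true))) = w
      rw [← hw]
      congr 1
      conv_rhs => rw [← List.ofFn_get L]
      congr 1
      funext i
      exact Prod.ext rfl (h6 _ (List.get_mem L i)).symm
  have hclopen : IsClopen (range (toFn (X := X) n)) := by
    rw [hrange]
    exact (isClopen_discrete _).preimage (continuous_deg.comp continuous_subtype_val)
  refine ⟨⟨?_, hclopen.isClosed⟩, hclopen.isOpen⟩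
  -- the embedding
  have hcont : Continuous (toFn (X := X) n) := by
    apply Continuous.subtype_mk
    apply (continuous_word n).comp
    exact continuous_pi (fun i => (continuous_apply i).prodMk continuous_const)
  let kn : (Fin n → K) → KF K := fun y => FreeGroup.mk (List.ofFn (fun i => (y i, true)))
  have hkc : Continuous kn := by
    have h1 := (continuous_KF_iff (K := K) (id : KF K → KF K)).1 continuous_id n
    exact h1.comp (continuous_pi (fun i => (continuous_apply i).prodMk continuous_const))
  have hki : Function.Injective kn := by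
    intro y y' h
    have h1 := mk_positive_inj (hpos y) (hpos y') h
    have h2 := List.ofFn_injective h1
    funext i
    exact congrArg Prod.fst (congrFun h2 i)
  have hke : IsEmbedding kn := (hkc.isClosedEmbedding hki).isEmbedding
  have hfe : IsEmbedding (fun x : Fin n → X => fun i => f (x i)) :=
    IsEmbedding.piMap (fun _ => hf)
  have h1 : IsEmbedding (toKF f ∘ (Subtype.val ∘ toFn (X := X) n)) := by
    have h2 : (toKF f ∘ (Subtype.val ∘ toFn (X := X) n)) =
        kn ∘ (fun x : Fin n → X => fun i => f (x i)) := by
      funext x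
      show FreeGroup.map f (FreeGroup.mk (List.ofFn (fun i => (x i, true)))) =
        FreeGroup.mk (List.ofFn (fun i => (f (x i), true)))
      rw [FreeGroup.map.mk, List.map_ofFn]
      rfl
    rw [h2]
    exact hke.comp hfe
  have h3 : IsEmbedding ((toKF f ∘ Subtype.val) ∘ toFn (X := X) n) := h1
  exact IsEmbedding.of_comp hcont ((continuous_toKF f hf.continuous).comp
    continuous_subtype_val) h3

/-- If `X^n` is a `k_R`-space for some `n ≥ 1` then so is `X`. -/
theorem isKR_of_pow (n : ℕ) (h : IsKR (Fin (n + 1) → X)) : IsKR X := by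
  intro f hf
  have h1 : Continuous (fun x : Fin (n + 1) → X => f (x 0)) := by
    apply h
    intro C hC
    have h2 : ContinuousOn f ((fun x : Fin (n + 1) → X => x 0) '' C) :=
      hf _ (hC.image (continuous_apply 0))
    exact h2.comp (continuous_apply 0).continuousOn (fun x hx => ⟨x, hx, rfl⟩)
  exact h1.comp (continuous_pi (fun _ => continuous_id) : Continuous (fun x : X => fun _ => x))

theorem not_isKR_FN {K : Type*} [TopologicalSpace K] [T2Space K] [CompactSpace K]
    (f : X → K) (hf : IsEmbedding f) (hX : ¬ IsKR X) (n : ℕ) (hn : 1 ≤ n) : ¬ IsKR (FN X n) := by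
  obtain ⟨m, rfl⟩ : ∃ m, n = m + 1 := ⟨n - 1, by omega⟩
  intro h
  obtain ⟨h1, h2⟩ := toFn_clopen f hf (m + 1)
  exact hX (isKR_of_pow m (IsKR.of_clopen _ h1 h2 h))

end

end Pool.Agent.Lib.MP_547adb_gt
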