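import Mathlib
import Pool.Agent.Lib.MP_547adb_gt.NotKR

/-!
# Existence of the well-ordered spaces
-/

set_option autoImplicit false

namespace Pool.Agent.Lib.MP_547adb_gt

open Set Topology Filter Cardinal

theorem bdd_of {α ι : Type} [LinearOrder α] [NoMaxOrder α] (h : #ι < Order.cof α) (f : ι → α) :
    BddAbove (Set.range f) := by
  by_contra hcon
  rw [not_bddAbove_iff_isCofinal] at hcon
  exact absurd (Order.cof_le hcon) (not_le.2 (mk_range_le.trans_lt h))

/-- The properties of one space. -/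
structure One (C : Type) [CompleteLinearOrder C] [TopologicalSpace C] (κ : Cardinal.{0}) :
    Prop where
  top : OrderTopology C
  bot : (⊥ : C) < ⊤
  next : ∀ a : C, a < ⊤ → ∃ a', a < a' ∧ a' < ⊤
  opn : ∀ a : C, IsOpen (Iic a)
  sup : ∀ (ι : Type) (f : ι → C), #ι < κ → (∀ i, f i < ⊤) → ⨆ i, f i < ⊤
  card : #C = κ

theorem exists_one (κ : Cardinal.{0}) (hκ : κ.IsRegular) (hκ' : ℵ₀ < κ) :
    ∃ (C : Type) (_ : CompleteLinearOrder C) (_ : TopologicalSpace C), One C κ := by
  have h0 : ℵ₀ ≤ κ := hκ'.le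
  let α := κ.ord.ToType
  have hmax : NoMaxOrder α := noMaxOrder h0
  have hne : Nonempty α := by
    rw [← mk_ne_zero_iff, mk_ord_toType]
    exact (aleph0_pos.trans hκ').ne'
  have hcof : Order.cof α = κ := by
    rw [Ordinal.cof_toType, hκ.cof_ord]
  let _ : OrderBot α := WellFoundedLT.toOrderBot α
  let _ : ConditionallyCompleteLinearOrderBot α :=
    WellFoundedLT.conditionallyCompleteLinearOrderBot α
  refine ⟨WithTop α, inferInstance, Preorder.topology (WithTop α), ?_⟩
  let _ : TopologicalSpace (WithTop α) := Preorder.topology (WithTop α)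
  have hot : OrderTopology (WithTop α) := ⟨rfl⟩
  have hnext : ∀ a : WithTop α, a < ⊤ → ∃ a', a < a' ∧ a' < ⊤ := by
    intro a ha
    obtain ⟨x, rfl⟩ := WithTop.ne_top_iff_exists.1 ha.ne
    obtain ⟨y, hy⟩ := exists_gt x
    exact ⟨y, WithTop.coe_lt_coe.2 hy, WithTop.coe_lt_top y⟩
  have hwf : WellFoundedLT (WithTop α) := inferInstance
  refine ⟨hot, ?_, hnext, ?_, ?_, ?_⟩
  · obtain ⟨x⟩ := hne
    exact lt_of_le_of_lt bot_le (WithTop.coe_lt_top x)
  · intro a
    by_cases ha : a < ⊤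
    · obtain ⟨b, hb1, -⟩ := hnext a ha
      -- the least element above `a`
      obtain ⟨c, hc1', hc2'⟩ := hwf.wf.has_min {c | a < c} ⟨b, hb1⟩
      have hc1 : a < c := hc1'
      have hc2 : ∀ x, a < x → ¬ x < c := fun x hx => hc2' x hx
      have : Iic a = Iio c := by
        ext x
        constructor
        · intro hx
          exact lt_of_le_of_lt hx hc1
        · intro hx
          by_contra hxa
          exact hc2 x (not_le.1 hxa) hx
      rw [this]
      exact isOpen_Iio
    · have : a = ⊤ := not_lt_top_iff.1 ha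
      rw [this, Iic_top]
      exact isOpen_univ
  · intro ι f hι hf
    choose g hg using fun i => WithTop.ne_top_iff_exists.1 (hf i).ne
    obtain ⟨b, hb⟩ := bdd_of (by rw [hcof]; exact hι) g
    refine lt_of_le_of_lt (iSup_le (fun i => ?_) : ⨆ i, f i ≤ (b : WithTop α))
      (WithTop.coe_lt_top b)
    rw [← hg i]
    exact WithTop.coe_le_coe.2 (hb (mem_range_self i))
  · show #(Option α) = κ
    rw [mk_option, mk_ord_toType]
    exact add_one_eq h0

/-- The pair of spaces of order type `ω₁ + 1` and `ω₂ + 1`. -/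
theorem exists_big : ∃ (A B : Type) (_ : CompleteLinearOrder A) (_ : CompleteLinearOrder B)
    (_ : TopologicalSpace A) (_ : TopologicalSpace B),
    OrderTopology A ∧ OrderTopology B ∧ Big A B := by
  have h1 : (ℵ_ 1 : Cardinal.{0}).IsRegular := isRegular_aleph_one
  have h2 : (ℵ_ (1 + 1) : Cardinal.{0}).IsRegular := isRegular_aleph_add_one 1
  have h01 : (ℵ₀ : Cardinal.{0}) < ℵ_ 1 := aleph0_lt_aleph_one
  have h12 : (ℵ_ 1 : Cardinal.{0}) < ℵ_ (1 + 1) := aleph_lt_aleph.2 (lt_add_one 1)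
  obtain ⟨A, i1, i2, hA⟩ := exists_one (ℵ_ 1) h1 h01
  obtain ⟨B, j1, j2, hB⟩ := exists_one (ℵ_ (1 + 1)) h2 (h01.trans h12)
  refine ⟨A, B, i1, j1, i2, j2, hA.top, hB.top, ?_⟩
  refine ⟨hA.bot, fun f hf => hA.sup ℕ f (by rw [mk_nat]; exact h01) hf, hA.next, hA.opn, hB.bot,
    fun f hf => hB.sup ℕ f (by rw [mk_nat]; exact h01.trans h12) hf, hB.next,
    fun f hf => hB.sup (Idx A) f ?_ hf⟩
  refine lt_of_le_of_lt (mk_subtype_le _) ?_
  rw [hA.card]
  exact h12

end Pool.Agent.Lib.MP_547adb_gt
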